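import Pool.Agent.N300.UN.Stubs

set_option autoImplicit false

open scoped ComplexConjugate

noncomputable section

namespace Pool.Agent.N300.UN.T_CORE

open Pool.Agent.H923R2.FP Pool.Agent.H923R2.FZ Pool.Agent.N300.UN

/-- lifting of a homomorphism along an injective homomorphism -/
theorem lift {A B C : Type} [CStarAlgebra A] [CStarAlgebra B] [CStarAlgebra C]
    (ι : A →⋆ₐ[ℂ] B) (hι : Function.Injective ι) (T : StarSubalgebra ℂ A) (φ : C →⋆ₐ[ℂ] B)
    (hφ : ∀ f, φ f ∈ T.map ι) : ∃ φA : C →⋆ₐ[ℂ] A, (∀ f, ι (φA f) = φ f) ∧ ∀ f, φA f ∈ T := by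
  have hr : ∀ f, φ f ∈ ι.range := by
    intro f
    obtain ⟨y, -, hy⟩ := hφ f
    exact ⟨y, hy⟩
  let E := StarAlgEquiv.ofInjective ι hι
  refine ⟨(E.symm : ι.range →⋆ₐ[ℂ] A).comp (φ.codRestrict ι.range hr), ?_, ?_⟩
  · intro f
    have h1 : E (E.symm ((φ.codRestrict ι.range hr) f)) = (φ.codRestrict ι.range hr) f :=
      E.apply_symm_apply _
    have h2 := congrArg (fun z : ι.range => (z : B)) h1
    exact h2
  · intro f
    obtain ⟨y, hy, hy2⟩ := hφ f
    have h1 : ι (E.symm ((φ.codRestrict ι.range hr) f)) = φ f := by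
      have h1 : E (E.symm ((φ.codRestrict ι.range hr) f)) = (φ.codRestrict ι.range hr) f :=
        E.apply_symm_apply _
      exact congrArg (fun z : ι.range => (z : B)) h1
    have h3 : E.symm ((φ.codRestrict ι.range hr) f) = y := hι (h1.trans hy2.symm)
    have h4 : ((E.symm : ι.range →⋆ₐ[ℂ] A).comp (φ.codRestrict ι.range hr)) f = y := h3
    rw [h4]
    exact hy

theorem t_CORE (hS : S_SETUP) (h0 : S_CORE0) (hC : S_COORD) : S_CORE := by
  intro B _ τ S g hτ htr hfree n φ ψ hφ hψ heq hinj F ε hε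
  obtain ⟨A, _, τA, ι, T, u1, s1, u2, s2, hstd, hι, hT⟩ := hS B τ S g hτ htr hfree
  obtain ⟨φA, hφ1, hφ2⟩ := lift ι hι T φ (by rw [hT]; exact hφ)
  obtain ⟨ψA, hψ1, hψ2⟩ := lift ι hι T ψ (by rw [hT]; exact hψ)
  refine hC n B ψ φ ?_ F ε hε
  intro η hη
  obtain ⟨v, hv⟩ := h0 A B τA τ ι T u1 s1 u2 s2 hstd n φA ψA hφ2 hψ2 (by
    intro f
    rw [← hstd.tr, ← hstd.tr, hφ1, hψ1, heq]) (by
    intro f f' hff
    apply hinj
    rw [← hφ1, ← hφ1, hff]) η hη
  refine ⟨star v, fun l => ?_⟩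
  have h1 := hv l
  rw [hφ1, hψ1] at h1
  have h2 : ψ (co l) * (star v : unitary B) - (star v : unitary B) * φ (co l) =
      -((star v : unitary B) * (φ (co l) * (v : B) - (v : B) * ψ (co l)) *
        (star v : unitary B)) := by
    have e1 : ((star v : unitary B) : B) * (v : B) = 1 := by
      rw [Unitary.coe_star]; exact Unitary.coe_star_mul_self v
    have e2 : (v : B) * ((star v : unitary B) : B) = 1 := by
      rw [Unitary.coe_star]; exact Unitary.coe_mul_star_self v
    have e3 : ((star v : unitary B) : B) * (φ (co l) * (v : B) - (v : B) * ψ (co l)) *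
        (star v : unitary B) = ((star v : unitary B) : B) * φ (co l) *
          ((v : B) * ((star v : unitary B) : B)) -
        (((star v : unitary B) : B) * (v : B)) * ψ (co l) * ((star v : unitary B) : B) := by
      noncomm_ring
    rw [e3, e1, e2, one_mul, mul_one, neg_sub]
  rw [h2, norm_neg]
  calc ‖((star v : unitary B) : B) * (φ (co l) * (v : B) - (v : B) * ψ (co l)) *
        ((star v : unitary B) : B)‖ ≤ ‖φ (co l) * (v : B) - (v : B) * ψ (co l)‖ := by
        rw [CStarRing.norm_mul_coe_unitary, CStarRing.norm_coe_unitary_mul]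
    _ < η := h1

end Pool.Agent.N300.UN.T_CORE
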