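import Pool.Agent.N300.UN.DataF
import Pool.Agent.N300.UN.TCORE0

set_option autoImplicit false

open scoped ComplexConjugate

noncomputable section

namespace Pool.Agent.N300.UN.T_DATA

open Pool.Agent.H923R2.FP Pool.Agent.H923R2.FZ Pool.Agent.N300.UN

/-- the real coordinate -/
def cor {n : ℕ} (l : Fin n) : C(Cube n, ℝ) := ⟨fun x => (x l : ℝ), by fun_prop⟩

theorem co_eq {n : ℕ} (l : Fin n) : co l = cxx (cor l) := rfl

theorem div_cont (e : ℝ) (he : 0 < e) (G : ℝ → ℝ) (hG : Continuous G) (h0 : ∀ t, t ≤ e → G t = 0) :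
    Continuous (fun t => G t / √t) := by
  have h1 : (fun t => G t / √t) = fun t => G t / √(max t e) := by
    funext t
    rcases le_total t e with h | h
    · rw [h0 t h, zero_div, zero_div]
    · rw [max_eq_left h]
  rw [h1]
  refine hG.div (by fun_prop) fun t => ?_
  exact (Real.sqrt_pos.2 (lt_of_lt_of_le he (le_max_right _ _))).ne'

theorem law_star {A : Type} [CStarAlgebra A] (hL : S_LAWM) (τ : A →ₗ[ℂ] ℂ) (hτ : FTS τ) (T : A)
    (G : ℝ → ℝ) (hG : Continuous G) : τ (cfc G (T * star T)) = τ (cfc G (star T * T)) := by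
  refine hL A A τ τ hτ hτ _ _ (by rw [star_mul, star_star]) (by rw [star_mul, star_star]) ?_ G hG
  intro k
  cases k with
  | zero => simp
  | succ k =>
    have h1 : ∀ k : ℕ, (T * star T) ^ (k + 1) = T * (star T * T) ^ k * star T := by
      intro k
      induction k with
      | zero => simp
      | succ k ih =>
        rw [pow_succ, ih, pow_succ]
        simp only [mul_assoc]
    rw [h1, mul_assoc, hτ.comm, mul_assoc, ← pow_succ]

theorem tc_01 (m i : ℕ) (hm : 1 ≤ m) (hi : i ≤ 2 * m) :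
    0 ≤ T_CORE0.tc m i ∧ T_CORE0.tc m i ≤ 1 := by
  have hm0 : (0 : ℝ) < m := by exact_mod_cast hm
  have hi2 : (i : ℝ) ≤ 2 * m := by exact_mod_cast hi
  unfold T_CORE0.tc
  split_ifs with h
  · have hi3 : (i : ℝ) ≤ m := by exact_mod_cast h
    exact ⟨by positivity, by rw [div_le_one hm0]; exact hi3⟩
  · have hi3 : (m : ℝ) ≤ i := by exact_mod_cast (not_le.1 h).le
    exact ⟨div_nonneg (by linarith) hm0.le, by rw [div_le_one hm0]; linarith⟩

set_option maxHeartbeats 4000000 in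
theorem t_DATA (h12 : S_C12) (hPU : S_POU) (hT : S_TT) (hA : S_ALG1) (hQ : S_SEQ)
    (hL : S_LAWM) : S_DATA := by
  classical
  intro A B _ _ τA τ ι S u1 s1 u2 s2 hstd n φ ψ hφ hψ heq hinj m hm δ hδ
  have hτA := hstd.t1.fts
  have hτ := hstd.t2.fts
  have hNB : Nontrivial B := ⟨⟨1, 0, fun h => by
    have h1 := hτ.one
    rw [h, map_zero] at h1
    exact zero_ne_one h1⟩⟩
  set δ' : ℝ := min δ 1 with hδ'
  have hδ0 : 0 < δ' := lt_min hδ one_pos
  have hδ1 : δ' ≤ 1 := min_le_right _ _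
  have hδ2 : δ' ≤ δ := min_le_left _ _
  set ω : ℝ := δ' / 32 with hω
  have hω0 : 0 < ω := by positivity
  obtain ⟨N, p, h, h01, hsum, hdist, hpos⟩ := hPU (Cube n) ω hω0
  obtain ⟨N', sp, h', h01', hsum', hdist', -⟩ := hPU unitInterval ω hω0
  have hpar : Par (Cube n) N N' h h' sp ω := ⟨h01, hsum, h01', hsum', hdist'⟩
  -- masses
  set mm : Fin N → ℝ := fun j => (τA (φ (cxx (h j * h j)))).re with hmm
  have hmm0 : ∀ j, 0 < mm j := by
    intro j
    have e1 : φ (cxx (h j * h j)) = star (φ (cxx (h j))) * φ (cxx (h j)) := by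
      rw [← map_star, star_cxx, ← map_mul, cxx_mul]
    have e2 : 0 ≤ mm j := by rw [hmm]; simp only [e1]; exact hτA.nonneg _
    refine lt_of_le_of_ne e2 fun e3 => ?_
    have e4 : φ (cxx (h j)) = 0 := hτA.faith _ (by rw [← e1]; exact e3.symm)
    have e5 : cxx (h j) = 0 := hinj (by rw [e4, map_zero])
    have e6 := congrArg (fun f : C(Cube n, ℂ) => f (p j)) e5
    have e7 : ((h j (p j) : ℝ) : ℂ) = 0 := e6
    exact (hpos j).ne' (by exact_mod_cast e7)
  set cc : Fin N → ℝ := fun j => (√(mm j))⁻¹ with hcc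
  have hcc0 : ∀ j, 0 ≤ cc j := fun j => by rw [hcc]; positivity
  have hcc1 : ∀ j, cc j ^ 2 * mm j = 1 := fun j => by
    have e1 := Real.sq_sqrt (hmm0 j).le
    have e2 : √(mm j) ≠ 0 := (Real.sqrt_pos.2 (hmm0 j)).ne'
    rw [hcc]
    simp only [inv_pow]
    rw [e1, inv_mul_cancel₀ (hmm0 j).ne']
  set K : ℝ := 1 + ∑ j, cc j with hK
  have hK1 : 1 ≤ K := by
    have : 0 ≤ ∑ j, cc j := Finset.sum_nonneg fun j _ => hcc0 j
    linarith
  have hccK : ∀ j, cc j ≤ K := fun j => by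
    have := Finset.single_le_sum (f := cc) (fun j _ => hcc0 j) (Finset.mem_univ j)
    linarith
  have hK0 : 0 < K := by linarith
  -- the index set
  set I0 := Fin (2 * m + 1) with hI0
  set J := Fin N × Fin N' with hJ
  set nI : I0 × J → ℕ := fun a => (Fintype.equivFin (I0 × J) a : ℕ) with hnI
  have hnI1 : Function.Injective nI := Fin.val_injective.comp (Equiv.injective _)
  set c0 : ℝ := (Fintype.card (I0 × J) : ℝ) with hc0
  have hc00 : 0 ≤ c0 := Nat.cast_nonneg _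
  have hcJ : (Fintype.card J : ℝ) ≤ c0 := by
    have h1 : Fintype.card J ≤ Fintype.card (I0 × J) :=
      Fintype.card_le_of_injective (fun c : J => ((⟨0, by omega⟩ : I0), c))
        (fun a b hab => (Prod.ext_iff.1 hab).2)
    rw [hc0]
    exact_mod_cast h1
  set E0 : ℝ := δ' / (64 * (c0 + 1)) with hE0
  have hE00 : 0 < E0 := by positivity
  set κ : ℝ := (E0 / K) ^ 2 / (c0 + 1) with hκ
  have hκ0 : 0 < κ := by positivity
  have hEκ : √(c0 * κ) * K ≤ E0 := by
    have e1 : c0 * κ ≤ (E0 / K) ^ 2 := by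
      rw [hκ, mul_div_assoc', div_le_iff₀ (by positivity)]
      have : 0 ≤ (E0 / K) ^ 2 := sq_nonneg _
      nlinarith
    calc √(c0 * κ) * K ≤ √((E0 / K) ^ 2) * K := by gcongr
      _ = E0 := by rw [Real.sqrt_sq (by positivity), div_mul_cancel₀ _ hK0.ne']
  obtain ⟨e, he, hecut⟩ := hstd.cut κ hκ0
  -- the intertwiners
  have hTk := fun k : ℕ => hT A τA S u1 s1 hstd.t1 (Cube n) φ ψ hφ hψ heq hinj
    (1 / ((k : ℝ) + 1)) (by positivity)
  choose T hTn hTi hTl using hTk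
  have hPk := fun k : ℕ => hstd.ped (T k) e he
  choose w0 hw0 using hPk
  obtain ⟨L, Q, _, _, ev, pr, lf, ext, hlt, hle⟩ := hQ B
  have hSQ : SQ ev pr := ⟨lf, ext, hlt, hle⟩
  have hιn : ∀ x, ‖ι x‖ ≤ ‖x‖ := fun x => hom_norm ι x
  set wB : ℕ → unitary B := fun k => ⟨ι (w0 k : A), by
    have hh := Unitary.mem_iff.1 (w0 k).2
    rw [Unitary.mem_iff, ← map_star, ← map_mul, ← map_mul, hh.1, hh.2, map_one]
    exact ⟨rfl, rfl⟩⟩ with hwB
  have hwBc : ∀ k, (wB k : B) = ι (w0 k : A) := fun k => rfl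
  obtain ⟨TL, hTL⟩ := lf (fun k => ι (T k)) ⟨2, fun k => (hιn _).trans (hTn k)⟩
  obtain ⟨WL, hWL⟩ := lf (fun k => (wB k : B)) ⟨1, fun k => (CStarRing.norm_coe_unitary _).le⟩
  obtain ⟨UL, hUL⟩ := lf (fun _ => (u2 : B)) ⟨1, fun k => (CStarRing.norm_coe_unitary _).le⟩
  obtain ⟨SL, hSL⟩ := lf (fun _ => s2) ⟨‖s2‖, fun k => le_rfl⟩
  obtain ⟨Φ, hΦk⟩ := hSQ.hom (fun _ => ι.comp φ)
  obtain ⟨Ψ, hΨk⟩ := hSQ.hom (fun _ => ι.comp ψ)
  obtain ⟨Bh, hBk⟩ := hSQ.hom (fun k => ((Unitary.conjStarAlgAut ℂ B (wB k) : B ≃⋆ₐ[ℂ] B) :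
    B →⋆ₐ[ℂ] B).comp (ι.comp ψ))
  have hΦk' : ∀ f k, ev k (Φ f) = ι (φ f) := fun f k => hΦk f k
  have hΨk' : ∀ f k, ev k (Ψ f) = ι (ψ f) := fun f k => hΨk f k
  have hBk' : ∀ f k, ev k (Bh f) = (wB k : B) * ι (ψ f) * star (wB k : B) := fun f k => by
    rw [hBk f k]
    change (Unitary.conjStarAlgAut ℂ B (wB k)) (ι (ψ f)) = _
    rw [Unitary.conjStarAlgAut_apply]
  have hWW : star WL * WL = 1 := ext _ _ fun k => by
    rw [map_mul, map_star, hWL, map_one]; exact Unitary.coe_star_mul_self _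
  have hWW' : WL * star WL = 1 := ext _ _ fun k => by
    rw [map_mul, map_star, hWL, map_one]; exact Unitary.coe_mul_star_self _
  set WQ : unitary Q := ⟨pr WL, by
    rw [Unitary.mem_iff, ← map_star, ← map_mul, ← map_mul, hWW, hWW', map_one]
    exact ⟨rfl, rfl⟩⟩ with hWQ
  have hWQc : (WQ : Q) = pr WL := rfl
  have hBW : ∀ f, Bh f = WL * Ψ f * star WL := fun f => ext _ _ fun k => by
    rw [hBk', map_mul, map_mul, map_star, hWL, hΨk']
  set PL : L := TL * star TL with hPL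
  have hPLs : star PL = PL := by rw [hPL, star_mul, star_star]
  have hPQ : pr PL = pr TL * star (pr TL) := by rw [hPL, map_mul, map_star]
  have hPLk : ∀ k, ev k PL = ι (T k * star (T k)) := fun k => by
    rw [hPL, map_mul, map_star, hTL, map_mul, map_star]
  have hιc : ∀ (x : A) (hx : star x = x) (G : ℝ → ℝ), Continuous G →
      cfc G (ι x) = ι (cfc G x) := fun x hx G hG =>
    (ι.map_cfc G x hG.continuousOn (cont_hom ι) (show IsSelfAdjoint x from hx)
      (IsSelfAdjoint.map (show IsSelfAdjoint x from hx) ι)).symm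
  have hTTs : ∀ k, star (T k * star (T k)) = T k * star (T k) := fun k => by
    rw [star_mul, star_star]
  have hTTs' : ∀ k, star (star (T k) * T k) = star (T k) * T k := fun k => by
    rw [star_mul, star_star]
  -- polar decomposition in the quotient
  have hpol : ∀ G : ℝ → ℝ, Continuous G → (∀ t, t ≤ e → G t = 0) →
      (WQ : Q) * cfc G (star (pr TL) * pr TL) =
        pr TL * cfc (fun t => G t / √t) (star (pr TL) * pr TL) := by
    intro G hG hG0
    have hdc := div_cont e he G hG hG0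
    have hCs : star (star TL * TL) = star TL * TL := by rw [star_mul, star_star]
    have e1 : WL * cfc G (star TL * TL) = TL * cfc (fun t => G t / √t) (star TL * TL) := by
      refine ext _ _ fun k => ?_
      have e2 : ev k (star TL * TL) = ι (star (T k) * T k) := by
        rw [map_mul, map_star, hTL, map_mul, map_star]
      rw [map_mul, map_mul, SQ.ev_cfc _ hCs G hG k, SQ.ev_cfc _ hCs _ hdc k, e2, hWL, hTL,
        hιc _ (hTTs' k) G hG, hιc _ (hTTs' k) _ hdc, hwBc, ← map_mul, ← map_mul,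
        hw0 k G hG hG0]
    have e3 := congrArg pr e1
    rw [map_mul, map_mul, SQ.pr_cfc _ hCs G hG, SQ.pr_cfc _ hCs _ hdc, map_mul, map_star] at e3
    rw [hWQc]
    exact e3
  have hTf : ∀ f, pr (Φ f) * pr TL = pr TL * pr (Ψ f) := by
    intro f
    rw [← map_mul, ← map_mul, ← sub_eq_zero, ← map_sub, ← norm_le_zero_iff]
    refine le_of_forall_pos_le_add fun r hr => ?_
    rw [zero_add]
    refine hle _ _ hr.le ?_
    have huc := CompactSpace.uniformContinuous_of_continuous f.continuous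
    obtain ⟨d, hd0, hd⟩ := Metric.uniformContinuous_iff.1 huc (r / 4) (by positivity)
    have hev : ∀ᶠ k : ℕ in Filter.atTop, 1 / ((k : ℝ) + 1) < d :=
      tendsto_one_div_add_atTop_nhds_zero_nat.eventually (gt_mem_nhds hd0)
    filter_upwards [hev] with k hk
    have e1 : ev k (Φ f * TL - TL * Ψ f) = ι (φ f * T k - T k * ψ f) := by
      rw [map_sub, map_mul, map_mul, hΦk', hΨk', hTL, map_sub, map_mul, map_mul]
    rw [e1]
    refine (hιn _).trans ?_
    have e2 := hTi k f (r / 4) (by positivity) (fun x y hxy => by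
      have := hd (hxy.trans hk)
      rw [dist_eq_norm] at this
      exact this.le)
    linarith
  have halg := fun f : C(Cube n, ℂ) => hA Q (pr TL) WQ e he hpol (pr (Φ f)) (pr (Ψ f)) (hTf f)
    (by rw [← map_star, ← map_star, ← map_star, ← map_star, hTf])
  have hAdΦ : Adm ev pr ι.range PL e Φ := by
    refine ⟨fun f k => ?_, fun f G hG hGe => ?_⟩
    · rw [hΦk']; exact ⟨φ f, rfl⟩
    · rw [hPQ]; exact ((halg f G hG).1 hGe).1
  have hBQ : ∀ f, pr (Bh f) = (WQ : Q) * pr (Ψ f) * star (WQ : Q) := fun f => by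
    rw [hBW, map_mul, map_mul, map_star, hWQc]
  have hAdB : Adm ev pr ι.range PL e Bh := by
    refine ⟨fun f k => ?_, fun f G hG hGe => ?_⟩
    · rw [hBk', hwBc]
      exact ⟨(w0 k : A) * ψ f * star (w0 k : A), by
        change ι _ = _
        rw [map_mul, map_mul, map_star]⟩
    · rw [hPQ, hBQ]; exact ((halg f G hG).1 hGe).2
  have hAdP : AdP ev ι.range τ PL e κ := by
    refine ⟨hPLs, fun G hG k => ?_, fun k => ?_⟩
    · rw [SQ.ev_cfc _ hPLs G hG k, hPLk, hιc _ (hTTs k) G hG]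
      exact ⟨_, rfl⟩
    · rw [hPLk, hιc _ (hTTs k) _ (kp_cont _ _), hstd.tr, law_star hL τA hτA _ _ (kp_cont _ _),
        hTl k _ (kp_cont _ _)]
      exact hecut.le
  -- the sites
  have hmmk : ∀ j k, (τ (ev k (Φ (cxx (h j * h j))))).re = mm j := fun j k => by
    rw [hΦk', hstd.tr]
  set tt : I0 → ℝ := fun i => T_CORE0.tc m i.val with htt
  have htt0 : ∀ i, 0 ≤ tt i ∧ tt i ≤ 1 := fun i => tc_01 m i.val hm (by have := i.2; omega)
  set αi : I0 → (C(Cube n, ℂ) →⋆ₐ[ℂ] L) := fun i => if i.val ≤ m then Φ else Bh with hαi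
  have hAdi : ∀ i, Adm ev pr ι.range PL e (αi i) := fun i => by
    rw [hαi]; simp only; split_ifs
    · exact hAdΦ
    · exact hAdB
  have hsp1 : ∀ (i : I0) (q : Fin N'), 0 ≤ 1 - tt i * (sp q : ℝ) ∧ 1 - tt i * (sp q : ℝ) ≤ 1 := by
    intro i q
    have a1 := htt0 i
    have a2 := (sp q).2
    have a3 : tt i * (sp q : ℝ) ≤ 1 := mul_le_one₀ a1.2 a2.1 a2.2
    have a4 : 0 ≤ tt i * (sp q : ℝ) := mul_nonneg a1.1 a2.1
    constructor <;> linarith
  have hΛ : ∀ (i : I0) (c : J), ∃ g : Fin N, ∀ l, |(p g l : ℝ) -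
      (1 - tt i * (sp c.2 : ℝ)) * (p c.1 l : ℝ)| ≤ ω := by
    intro i c
    let Λ : Cube n := fun l => ⟨(1 - tt i * (sp c.2 : ℝ)) * (p c.1 l : ℝ),
      mul_nonneg (hsp1 i c.2).1 (p c.1 l).2.1,
      mul_le_one₀ (hsp1 i c.2).2 (p c.1 l).2.1 (p c.1 l).2.2⟩
    have h1 : ∃ g, h g Λ ≠ 0 := by
      by_contra hcon
      push Not at hcon
      have h2 := hsum Λ
      rw [Finset.sum_eq_zero fun g _ => by rw [hcon g]; norm_num] at h2
      exact zero_ne_one h2
    obtain ⟨g, hg⟩ := h1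
    refine ⟨g, fun l => ?_⟩
    have h3 := hdist g Λ hg
    have h4 := (dist_le_pi_dist Λ (p g) l).trans_lt h3
    rw [Subtype.dist_eq, Real.dist_eq, abs_sub_comm] at h4
    exact h4.le
  choose g hg using hΛ
  set X0 : I0 → J → L := fun i c => xc PL Φ e (cc (g i c)) (h (g i c)) with hX0
  set Y0 : I0 → J → L := fun i c => cell PL (αi i) (h c.1) (Gp e h' c.2) with hY0
  set RR : I0 → L := fun i => RL UL SL (fun c => nI (i, c)) (X0 i) (Y0 i) with hRR
  have hh1 : ∀ j x, |h j x| ≤ 1 := fun j x => by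
    rw [abs_of_nonneg (h01 j x).1]; exact (h01 j x).2
  set kc : L := cfc (kp e 3) PL with hkc
  -- inner products
  set ζ : ℝ := K ^ 2 * (2 * κ) with hζ
  have hζ0 : 0 ≤ ζ := by positivity
  have hYsum : ∀ i, pr (∑ c, star (Y0 i c) * Y0 i c) = pr (kc * kc) := by
    intro i
    have e1 := cell_sum (hAdi i) hAdP h (Gp e h') (fun q => Gp_cont q) (Gp_const he)
    rw [e1]
    have e2 : cxx (∑ j, h j * h j) = (1 : C(Cube n, ℂ)) := by
      ext x
      rw [cxx_apply]
      have : (∑ j, h j * h j : C(Cube n, ℝ)) x = ∑ j, h j x ^ 2 := by simp [sq]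
      rw [this, hsum]
      simp
    rw [e2, map_one, map_one, one_mul, hkc, cmul _ _ _ (kp_cont _ _) (kp_cont _ _),
      SQ.pr_cfc _ hPLs _ (by have := kp_cont e 3; fun_prop)]
    congr 1
    funext t
    rw [Gp_sum hsum', sq]
  have hipb : 2 * √c0 * (√(c0 * κ) * K) + (√(c0 * κ) * K) ^ 2 + Fintype.card J * ζ ≤
      δ' / 16 := by
    have a0 : 0 ≤ √(c0 * κ) * K := by positivity
    have a1 : √c0 ≤ c0 + 1 := by
      rw [Real.sqrt_le_left (by positivity)]
      nlinarith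
    have a2 : (√(c0 * κ) * K) ^ 2 ≤ E0 ^ 2 := pow_le_pow_left₀ a0 hEκ 2
    have a3 : Fintype.card J * ζ ≤ 2 * E0 ^ 2 := by
      have b1 : (√(c0 * κ) * K) ^ 2 = c0 * κ * K ^ 2 := by
        rw [mul_pow, Real.sq_sqrt (by positivity)]
      have b2 : (Fintype.card J : ℝ) * ζ ≤ c0 * ζ := by gcongr
      calc (Fintype.card J : ℝ) * ζ ≤ c0 * ζ := b2
        _ = 2 * (c0 * κ * K ^ 2) := by rw [hζ]; ring
        _ ≤ 2 * E0 ^ 2 := by rw [← b1]; linarith
    have a4 : √c0 * (√(c0 * κ) * K) ≤ (c0 + 1) * E0 := by gcongr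
    have a5 : (c0 + 1) * E0 = δ' / 64 := by
      rw [hE0]; field_simp
    have a6 : E0 ≤ δ' / 64 := by
      rw [hE0]
      gcongr
      nlinarith
    have a7 : E0 ^ 2 ≤ δ' / 64 := by
      calc E0 ^ 2 = E0 * E0 := sq _
        _ ≤ (δ' / 64) * 1 := by
            gcongr
            linarith
        _ = δ' / 64 := mul_one _
    nlinarith
  have hip : ∀ i i' : I0, ‖pr (star (RR i) * RR i') -
      pr (if i = i' then kc * kc else 0)‖ ≤ δ' / 16 := by
    intro i i'
    have e1 := ip hSQ h12 hstd.t2 hnI1 hUL hSL X0 Y0 κ K ζ hκ0.le hK0.le hζ0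
      (fun i c k => xc_mem hAdΦ hAdP _ _ k)
      (fun i c k => cell_mem (hAdi i) hAdP _ _ (Gp_cont _) k)
      (fun i c k => xc_tr hτ hAdP (cc (g i c)) (mm (g i c)) 1 (hcc1 _) (h (g i c)) (h (g i c)) k
        (hmmk _ k) (fun x => by rw [one_mul]))
      (fun i c k => by
        refine le_trans ?_ (xc_tr_low hτ hAdP (cc (g i c)) (mm (g i c)) (hcc1 _) (h (g i c))
          (hh1 _) k (hmmk _ k))
        have b1 : cc (g i c) ^ 2 ≤ K ^ 2 := pow_le_pow_left₀ (hcc0 _) (hccK _) 2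
        have b2 : cc (g i c) ^ 2 * (2 * κ) ≤ ζ := by rw [hζ]; gcongr
        linarith)
      (fun i c k => cell_tr hτ hAdP _ _ (Gp_cont _) (hh1 _) (Gp_sq he h01' _) k)
      (fun i c k => (xc_norm _ (hcc0 _) _ (hh1 _) k).trans (hccK _))
      (fun i c k => cell_norm _ _ 1 zero_le_one (hh1 _) (Gp_abs h01' _) k) i i'
    have e2 : pr (if i = i' then ∑ c, star (Y0 i c) * Y0 i c else 0) =
        pr (if i = i' then kc * kc else 0) := by
      split_ifs
      · exact hYsum i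
      · rfl
    rw [e2] at e1
    exact e1.trans hipb
  have hkcn : ‖kc‖ ≤ 1 := norm_kp _ _ _
  have hRRn : ∀ i, ‖pr (RR i)‖ < 2 := by
    intro i
    have e1 := hip i i
    rw [if_pos rfl] at e1
    have e2 : ‖pr (star (RR i) * RR i)‖ ≤ δ' / 16 + 1 := by
      calc ‖pr (star (RR i) * RR i)‖ = ‖(pr (star (RR i) * RR i) - pr (kc * kc)) +
            pr (kc * kc)‖ := by rw [sub_add_cancel]
        _ ≤ ‖pr (star (RR i) * RR i) - pr (kc * kc)‖ + ‖pr (kc * kc)‖ := norm_add_le _ _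
        _ ≤ δ' / 16 + 1 := by
            gcongr
            refine (hom_norm pr _).trans ((norm_mul_le _ _).trans ?_)
            exact mul_le_one₀ hkcn (norm_nonneg _) hkcn
    rw [map_mul, map_star, CStarRing.norm_star_mul_self] at e2
    nlinarith [norm_nonneg (pr (RR i))]
  -- intertwining
  have hint : ∀ (i : I0) (l : Fin n), ‖pr (Φ (co l) * RR i - RR i *
      ((1 - (tt i : ℂ) • cfc (kp e 1) PL) * αi i (co l)))‖ < δ := by
    intro i l
    have e1 := inter hSQ h12 hstd.t2 (n := fun c => nI (i, c))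
      (fun c c' hcc' => (Prod.ext_iff.1 (hnI1 hcc')).2) hUL hSL hAdΦ (hAdi i) hAdP he hκ0.le h h'
      sp ω hω0 hpar (g i) cc mm K hcc0 hcc1 hccK hK0.le hmmk (cor l) (fun j => (p j l : ℝ))
      (fun x => ⟨(x l).2.1, (x l).2.2⟩) (fun j => ⟨(p j l).2.1, (p j l).2.2⟩)
      (fun j x hx => by
        have h4 := (dist_le_pi_dist x (p j) l).trans_lt (hdist j x hx)
        rw [Subtype.dist_eq, Real.dist_eq] at h4
        exact h4.le) (tt i) (htt0 i).1 (htt0 i).2 (fun c => hg i c l)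
    refine lt_of_le_of_lt e1 ?_
    have a1 : √(2 * ω ^ 2) ≤ 2 * ω := by
      rw [Real.sqrt_le_left (by positivity)]
      nlinarith [sq_nonneg ω]
    have a2 : √(Fintype.card (Fin N × Fin N') * κ) * K ≤ E0 := by
      refine le_trans ?_ hEκ
      gcongr
    have a6 : E0 ≤ δ' / 64 := by
      rw [hE0]
      gcongr
      nlinarith
    calc 4 * (√(2 * ω ^ 2) + √(Fintype.card (Fin N × Fin N') * κ) * K) ≤
          4 * (2 * ω + E0) := by gcongr
      _ < δ' := by rw [hω]; linarith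
      _ ≤ δ := hδ2
  -- orthogonality
  have hcR : ∀ i, pr (kc * RR i) = 0 := by
    intro i
    have e1 : ∀ c, pr (kc * X0 i c) = 0 := by
      intro c
      have c1 := (hAdΦ.comm (cxx (h (g i c))) (kp e 3) (kp_cont _ _)
        (kp_const he 3 (by norm_num))).eq
      have c2 : pr (cfc (fun t => 1 - kp e 4 t) PL) = cfc (fun t => 1 - kp e 4 t) (pr PL) :=
        SQ.pr_cfc _ hPLs _ q_cont
      have c3 : pr kc = cfc (kp e 3) (pr PL) := SQ.pr_cfc _ hPLs _ (kp_cont _ _)
      have c4 : cfc (kp e 3) (pr PL) * cfc (fun t => 1 - kp e 4 t) (pr PL) = 0 := by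
        rw [cmul _ _ _ (kp_cont _ _) q_cont]
        have : (fun t => kp e 3 t * (1 - kp e 4 t)) = fun _ => (0 : ℝ) := by
          funext t
          have := kp_mul he (show 3 < 4 by norm_num) t
          linarith
        rw [this, cfc_const_zero]
      simp only [hX0, xc, cell]
      rw [map_mul, map_smul, map_mul, c2, c3, mul_smul_comm, ← mul_assoc, ← c1, mul_assoc, c4,
        mul_zero, smul_zero]
    rw [hRR]
    simp only
    rw [RL_left]
    unfold RL
    rw [map_sum]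
    refine Finset.sum_eq_zero fun c _ => ?_
    rw [map_mul, map_mul pr (kc * X0 i c), e1, zero_mul, zero_mul]
  -- extraction of an index
  have X1 : ∀ᶠ k in Filter.atTop, ∀ i : I0, ‖ev k (RR i)‖ < 2 :=
    Filter.eventually_all.2 fun i => hlt _ _ (hRRn i)
  have hz : ∀ (Z : L), pr Z = 0 → ∀ᶠ k in Filter.atTop, ‖ev k Z‖ < δ := fun Z hZ =>
    hlt _ _ (by rw [hZ, norm_zero]; exact hδ)
  have X2 : ∀ᶠ k in Filter.atTop, ∀ (l : Fin n) (r : Fin 4), 1 ≤ r.val →
      ‖ev k (Φ (co l) * cfc (kp e r.val) PL - cfc (kp e r.val) PL * Φ (co l))‖ < δ ∧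
      ‖ev k (Bh (co l) * cfc (kp e r.val) PL - cfc (kp e r.val) PL * Bh (co l))‖ < δ := by
    refine Filter.eventually_all.2 fun l => Filter.eventually_all.2 fun r => ?_
    by_cases hr : 1 ≤ r.val
    · have a1 := hz (Φ (co l) * cfc (kp e r.val) PL - cfc (kp e r.val) PL * Φ (co l)) (by
        rw [map_sub, map_mul, map_mul, SQ.pr_cfc _ hPLs _ (kp_cont _ _),
          (hAdΦ.comm (co l) _ (kp_cont _ _) (kp_const he _ hr)).eq, sub_self])
      have a2 := hz (Bh (co l) * cfc (kp e r.val) PL - cfc (kp e r.val) PL * Bh (co l)) (by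
        rw [map_sub, map_mul, map_mul, SQ.pr_cfc _ hPLs _ (kp_cont _ _),
          (hAdB.comm (co l) _ (kp_cont _ _) (kp_const he _ hr)).eq, sub_self])
      filter_upwards [a1, a2] with k h1 h2 _
      exact ⟨h1, h2⟩
    · exact Filter.Eventually.of_forall fun k h1 => absurd h1 hr
  have X3 : ∀ᶠ k in Filter.atTop, ∀ l : Fin n,
      ‖ev k ((1 - cfc (kp e 1) PL) * (Φ (co l) - Bh (co l)))‖ < δ := by
    refine Filter.eventually_all.2 fun l => hz _ ?_
    have a1 := (halg (co l) (fun t => 1 - kp e 1 t) (by have := kp_cont e 1; fun_prop)).2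
      (fun t ht => by rw [kp_one he 1 (by simpa using ht), sub_self])
    have a2 : cfc (fun t => 1 - kp e 1 t) (pr PL) = 1 - cfc (kp e 1) (pr PL) := by
      rw [cfc_sub (fun _ => (1 : ℝ)) (kp e 1) (pr PL) continuousOn_const
        (kp_cont _ _).continuousOn, cfc_const_one ℝ (pr PL) (IsSelfAdjoint.map hPLs pr)]
    rw [← hPQ, a2, ← hBQ] at a1
    rw [map_mul, map_sub, map_sub, map_one, SQ.pr_cfc _ hPLs _ (kp_cont _ _)]
    exact a1
  have X4 : ∀ᶠ k in Filter.atTop, ∀ i : I0, ‖ev k (kc * RR i)‖ < δ :=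
    Filter.eventually_all.2 fun i => hz _ (hcR i)
  have X5 : ∀ᶠ k in Filter.atTop, ∀ i i' : I0,
      ‖ev k (star (RR i) * RR i' - if i = i' then kc * kc else 0)‖ < δ :=
    Filter.eventually_all.2 fun i => Filter.eventually_all.2 fun i' => hlt _ _ (by
      rw [map_sub]
      refine (hip i i').trans_lt ?_
      linarith)
  have X6 : ∀ᶠ k in Filter.atTop, ∀ (i : I0) (l : Fin n), ‖ev k (Φ (co l) * RR i - RR i *
      ((1 - (tt i : ℂ) • cfc (kp e 1) PL) * αi i (co l)))‖ < δ :=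
    Filter.eventually_all.2 fun i => Filter.eventually_all.2 fun l => hlt _ _ (hint i l)
  obtain ⟨k, k1, k2, k3, k4, k5, k6⟩ :=
    (X1.and (X2.and (X3.and (X4.and (X5.and X6))))).exists
  have hcf : ∀ r, cfc (kp e r) (ev k PL) = ev k (cfc (kp e r) PL) := fun r =>
    (SQ.ev_cfc _ hPLs _ (kp_cont _ _) k).symm
  obtain ⟨Rk, hRk, hRk0⟩ : ∃ Rk : ℕ → B, (∀ (i : ℕ) (hi : i < 2 * m + 1),
      Rk i = ev k (RR ⟨i, hi⟩)) ∧ (∀ i, ¬ i < 2 * m + 1 → Rk i = 0) :=
    ⟨fun i => if hi : i < 2 * m + 1 then ev k (RR ⟨i, hi⟩) else 0,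
      fun i hi => by simp only [dif_pos hi], fun i hi => by simp only [dif_neg hi]⟩
  refine ⟨wB k, ev k PL, e, Rk, he, ?_, ?_, ?_, ?_, ?_, ?_, ?_, ?_⟩
  · rw [← map_star, hPLs]
  · rw [hPLk]
    refine (hιn _).trans ((norm_mul_le _ _).trans ?_)
    rw [norm_star]
    have := hTn k
    nlinarith [norm_nonneg (T k)]
  · intro i
    by_cases hi : i < 2 * m + 1
    · rw [hRk i hi]; exact (k1 _).le
    · rw [hRk0 i hi, norm_zero]; norm_num
  · intro l r hr
    have h1 : r < 4 := by rcases hr with rfl | rfl | rfl <;> norm_num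
    have h2 : 1 ≤ r := by rcases hr with rfl | rfl | rfl <;> norm_num
    have h3 := k2 l ⟨r, h1⟩ h2
    rw [map_sub, map_mul, map_mul, hΦk', map_sub, map_mul, map_mul, hBk'] at h3
    rw [hcf]
    exact ⟨h3.1.le, h3.2.le⟩
  · intro l
    have h3 := k3 l
    rw [map_mul, map_sub, map_sub, map_one, hΦk', hBk'] at h3
    rw [hcf]
    exact h3.le
  · intro i hi1 hi2
    have hi3 : i < 2 * m + 1 := by omega
    have h3 := k4 ⟨i, hi3⟩
    rw [hRk i hi3, hcf]
    rw [map_mul] at h3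
    exact h3.le
  · intro i j hi1 hi2 hj1 hj2
    have hi3 : i < 2 * m + 1 := by omega
    have hj3 : j < 2 * m + 1 := by omega
    have h3 := k5 ⟨i, hi3⟩ ⟨j, hj3⟩
    rw [hRk i hi3, hRk j hj3, hcf]
    by_cases hij : i = j
    · subst hij
      rw [if_pos rfl] at h3 ⊢
      rw [map_sub, map_mul, map_star, map_mul] at h3
      exact h3.le
    · rw [if_neg hij]
      rw [if_neg (fun h => hij (Fin.mk.inj_iff.1 h)), sub_zero, map_mul, map_star] at h3
      rw [sub_zero]
      exact h3.le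
  · intro i l hi1 hi2
    have hi3 : i < 2 * m + 1 := by omega
    have h3 := k6 ⟨i, hi3⟩ l
    rw [hRk i hi3, hcf]
    have e1 : (1 - ((tt ⟨i, hi3⟩ : ℝ) : ℂ) • cfc (kp e 1) PL) * αi ⟨i, hi3⟩ (co l) =
        site m (cfc (kp e 1) PL) (Φ (co l)) (Bh (co l)) i := by
      rw [T_CORE0.site_eq]
      congr 1
      simp only [hαi, T_CORE0.bs]
      split_ifs <;> rfl
    rw [e1, map_sub, map_mul, map_mul, T_CORE0.map_site, hΦk', hBk'] at h3
    exact h3.le

end Pool.Agent.N300.UN.T_DATA
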