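import Pool.Agent.N300.UN.Stubs

set_option autoImplicit false

open scoped ComplexConjugate

noncomputable section

namespace Pool.Agent.N300.UN.T_UW

open Pool.Agent.H923R2.FP Pool.Agent.H923R2.FZ Pool.Agent.N300.UN

theorem t_UW (hC : S_CORE) (hD : S_DBL) : S_UW := by
  classical
  intro J D _ t B _ τ e f h n φ ψ hφ heq F ε hε
  obtain ⟨B', _, τ', ι, g, Φ, hτ', hι, htr, htg, hfree, hclose⟩ := hD J D t B τ e f h
    (F.image φ ∪ F.image ψ) (ε / 4) (by positivity)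
  obtain ⟨v, hv⟩ := hC B' τ' ι.range g hτ' htg hfree n (ι.comp φ) (ι.comp ψ)
    (fun x => ⟨φ x, rfl⟩) (fun x => ⟨ψ x, rfl⟩) (by
      intro x
      rw [StarAlgHom.comp_apply, StarAlgHom.comp_apply, htr, htr, heq]) (by
      rw [StarAlgHom.coe_comp]
      exact hι.comp hφ) F (ε / 4) (by positivity)
  have hΦn : ∀ x, ‖Φ x‖ = ‖x‖ := fun x => StarAlgEquiv.norm_map Φ x
  let w : unitary B := ⟨Φ v, by
    have hh := Unitary.mem_iff.1 v.2
    rw [Unitary.mem_iff, ← map_star, ← map_mul, ← map_mul, hh.1, hh.2, map_one]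
    exact ⟨rfl, rfl⟩⟩
  refine ⟨w, fun x hx => ?_⟩
  have h1 : ‖Φ (ι (φ x)) - φ x‖ < ε / 4 := hclose _ (by
    rw [Finset.mem_union]; exact Or.inl (Finset.mem_image_of_mem _ hx))
  have h2 : ‖Φ (ι (ψ x)) - ψ x‖ < ε / 4 := hclose _ (by
    rw [Finset.mem_union]; exact Or.inr (Finset.mem_image_of_mem _ hx))
  have h3 := hv x hx
  rw [StarAlgHom.comp_apply, StarAlgHom.comp_apply] at h3
  have h4 : ‖(w : B) * Φ (ι (φ x)) * star (w : B) - Φ (ι (ψ x))‖ < ε / 4 := by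
    have : (w : B) * Φ (ι (φ x)) * star (w : B) - Φ (ι (ψ x)) =
        Φ ((v : B') * ι (φ x) * star (v : B') - ι (ψ x)) := by
      rw [map_sub, map_mul, map_mul, map_star]
    rw [this, hΦn]
    exact h3
  have h5 : ‖(w : B) * (φ x - Φ (ι (φ x))) * star (w : B)‖ < ε / 4 := by
    rw [← Unitary.coe_star, CStarRing.norm_mul_coe_unitary, CStarRing.norm_coe_unitary_mul,
      norm_sub_rev]
    exact h1
  have h6 : (w : B) * φ x * star (w : B) - ψ x = (w : B) * (φ x - Φ (ι (φ x))) * star (w : B) +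
      ((w : B) * Φ (ι (φ x)) * star (w : B) - Φ (ι (ψ x))) + (Φ (ι (ψ x)) - ψ x) := by
    noncomm_ring
  rw [h6]
  calc _ ≤ ‖(w : B) * (φ x - Φ (ι (φ x))) * star (w : B)‖ +
        ‖(w : B) * Φ (ι (φ x)) * star (w : B) - Φ (ι (ψ x))‖ + ‖Φ (ι (ψ x)) - ψ x‖ :=
        norm_add₃_le
    _ < ε := by linarith

end Pool.Agent.N300.UN.T_UW
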