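import Pool.Agent.H923R2.FZ.Stubs3

/-!
# Project UN: maps `C([0,1]^n) → A *_r C([0,1])^{*∞}` with the same trace are approximately
unitarily equivalent (MP_401a3a_an, MP_47f0a1_an, MP_1cc182_an).  Definitions and statements of the
tasks.
-/

set_option autoImplicit false

open scoped ComplexConjugate

noncomputable section

namespace Pool.Agent.N300.UN

open Pool.Agent.H923R2.FP Pool.Agent.H923R2.FZ

/-- the cube `[0,1]^n` -/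
abbrev Cube (n : ℕ) : Type := Fin n → unitInterval

/-- the `l`-th coordinate, as a complex function -/
def co {n : ℕ} (l : Fin n) : C(Cube n, ℂ) :=
  ⟨fun x => ((x l : ℝ) : ℂ), by fun_prop⟩

/-- cutoff functions: `1` for `t ≤ r e`, `0` for `t ≥ (r + 1) e`, linear in between -/
def kp (e : ℝ) (r : ℕ) (t : ℝ) : ℝ := max 0 (min 1 ((r : ℝ) + 1 - t / e))

/-- `S`, the Haar unitary `u` and the semicircular element `s` are free -/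
structure FTrip {B : Type} [CStarAlgebra B] (τ : B →ₗ[ℂ] ℂ) (S : StarSubalgebra ℂ B)
    (u : unitary B) (s : B) : Prop where
  fts : FTS τ
  ssa : star s = s
  sc : ∀ m : ℕ, m ≠ 0 → τ (Uc s m) = 0
  hu : ∀ n : ℤ, n ≠ 0 → τ ((u ^ n : unitary B) : B) = 0
  f1 : FreeFam τ (fun b : Bool => if b then S else StarAlgebra.adjoin ℂ {(u : B)})
  f2 : FreeFam τ (fun b : Bool => if b then S ⊔ StarAlgebra.adjoin ℂ {(u : B)} else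
    StarAlgebra.adjoin ℂ {s})

/-- `∑ x_a u^{n_a + 1} s u^{n_a + 1} y_a` -/
def RT {B : Type} [CStarAlgebra B] (u : unitary B) (s : B) {ι : Type} [Fintype ι] (n : ι → ℕ)
    (x y : ι → B) : B :=
  ∑ a, x a * ((u : B) ^ (n a + 1) * s * (u : B) ^ (n a + 1)) * y a

/-! ### LAWM: laws -/

/-- self-adjoint elements with the same moments have the same law -/
def S_LAWM : Prop := ∀ (A B : Type) [CStarAlgebra A] [CStarAlgebra B] (τ : A →ₗ[ℂ] ℂ)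
  (τ' : B →ₗ[ℂ] ℂ), FTS τ → FTS τ' → ∀ (x : A) (y : B), star x = x → star y = y →
  (∀ n : ℕ, τ (x ^ n) = τ' (y ^ n)) → ∀ G : ℝ → ℝ, Continuous G → τ (cfc G x) = τ' (cfc G y)

/-! ### FOCK, C12, C3: the Fock model -/

/-- The Fock model of an algebra generated by `S` and a free semicircular element `s`. -/
def S_FOCK : Prop := ∀ (B : Type) [CStarAlgebra B] (τ : B →ₗ[ℂ] ℂ), FTS τ →
  ∀ (S : StarSubalgebra ℂ B) (s : B), star s = s → (∀ m : ℕ, m ≠ 0 → τ (Uc s m) = 0) →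
  FreeFam τ (fun b : Bool => if b then S else StarAlgebra.adjoin ℂ {s}) →
  (StarAlgebra.adjoin ℂ ((S : Set B) ∪ {s})).topologicalClosure = ⊤ →
  ∃ (H : Type) (_ : NormedAddCommGroup H) (_ : InnerProductSpace ℂ H) (_ : CompleteSpace H)
    (lam : B →⋆ₐ[ℂ] (H →L[ℂ] H)) (l : H →L[ℂ] H) (Ω : H),
    (∀ x, ‖lam x‖ = ‖x‖) ∧ (∀ x, inner ℂ Ω (lam x Ω) = τ x) ∧ lam s = l + star l ∧
    (∀ x ∈ S, star l * lam x * l = τ x • (1 : H →L[ℂ] H)) ∧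
    ∀ x ∈ S, (star l) (lam x Ω) = 0

/-- `‖L‖` -/
def nL {B : Type} [CStarAlgebra B] (τ : B →ₗ[ℂ] ℂ) {ι : Type} [Fintype ι] (x y : ι → B) : ℝ :=
  Real.sqrt ‖∑ a, τ (star (x a) * x a) • (star (y a) * y a)‖

/-- `‖M‖` -/
def nM {B : Type} [CStarAlgebra B] (τ : B →ₗ[ℂ] ℂ) {ι : Type} [Fintype ι] (x y : ι → B) : ℝ :=
  Real.sqrt ‖∑ a, τ (y a * star (y a)) • (x a * star (x a))‖

/-- norm estimates -/
def S_C12 : Prop := ∀ (B : Type) [CStarAlgebra B] (τ : B →ₗ[ℂ] ℂ) (S : StarSubalgebra ℂ B)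
  (u : unitary B) (s : B), FTrip τ S u s → ∀ (ι : Type) [Fintype ι] (n : ι → ℕ),
  Function.Injective n → ∀ x y x' y' : ι → B, (∀ a, x a ∈ S) → (∀ a, y a ∈ S) →
  (∀ a, x' a ∈ S) → (∀ a, y' a ∈ S) →
  ‖RT u s n x y‖ ≤ nL τ x y + nM τ x y ∧
  ‖star (RT u s n x y) * RT u s n x' y' - ∑ a, τ (star (x a) * x' a) • (star (y a) * y' a)‖ ≤
    nL τ x y * nM τ x' y' + nM τ x y * (nL τ x' y' + nM τ x' y')

/-- the law of a circular element -/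
def S_C3 : Prop := ∀ (B : Type) [CStarAlgebra B] (τ : B →ₗ[ℂ] ℂ) (S : StarSubalgebra ℂ B)
  (u : unitary B) (s : B), FTrip τ S u s → ∀ (ι : Type) [Fintype ι] (n : ι → ℕ),
  Function.Injective n → ∀ x y : ι → B, (∀ a, x a ∈ S) → (∀ a, y a ∈ S) →
  ∑ a, τ (star (x a) * x a) • (star (y a) * y a) = 1 →
  ∑ a, τ (y a * star (y a)) • (x a * star (x a)) = 1 →
  ∀ G : ℝ → ℝ, Continuous G →
    τ (cfc G (star (RT u s n x y) * RT u s n x y)) = τ (cfc G (s * s))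

/-! ### POU, TT: the intertwiner -/

/-- fine partitions of unity -/
def S_POU : Prop := ∀ (X : Type) [MetricSpace X] [CompactSpace X] (ω : ℝ), 0 < ω →
  ∃ (N : ℕ) (p : Fin N → X) (h : Fin N → C(X, ℝ)), (∀ j x, 0 ≤ h j x ∧ h j x ≤ 1) ∧
    (∀ x, ∑ j, h j x ^ 2 = 1) ∧ (∀ j x, h j x ≠ 0 → dist x (p j) < ω) ∧ ∀ j, 0 < h j (p j)

/-- the approximate intertwiner -/
def S_TT : Prop := ∀ (A : Type) [CStarAlgebra A] (τ : A →ₗ[ℂ] ℂ) (S : StarSubalgebra ℂ A)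
  (u : unitary A) (s : A), FTrip τ S u s → ∀ (X : Type) [MetricSpace X] [CompactSpace X]
  (φ ψ : C(X, ℂ) →⋆ₐ[ℂ] A), (∀ f, φ f ∈ S) → (∀ f, ψ f ∈ S) → (∀ f, τ (φ f) = τ (ψ f)) →
  Function.Injective φ → ∀ ω : ℝ, 0 < ω →
  ∃ T : A, ‖T‖ ≤ 2 ∧
    (∀ (f : C(X, ℂ)) (r : ℝ), 0 ≤ r → (∀ x y, dist x y < ω → ‖f x - f y‖ ≤ r) →
      ‖φ f * T - T * ψ f‖ ≤ 4 * r) ∧
    ∀ G : ℝ → ℝ, Continuous G → τ (cfc G (star T * T)) = τ (cfc G (s * s))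

/-! ### ALG1, SEQ, ZZ, CUT -/

/-- the unitary polar part -/
def S_ALG1 : Prop := ∀ (Q : Type) [CStarAlgebra Q] (T : Q) (w : unitary Q) (e : ℝ), 0 < e →
  (∀ G : ℝ → ℝ, Continuous G → (∀ t, t ≤ e → G t = 0) →
    (w : Q) * cfc G (star T * T) = T * cfc (fun t => G t / Real.sqrt t) (star T * T)) →
  ∀ a b : Q, a * T = T * b → star a * T = T * star b → ∀ G : ℝ → ℝ, Continuous G →
    ((∀ t, t ≤ e → G t = G e) → Commute a (cfc G (T * star T)) ∧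
      Commute ((w : Q) * b * star (w : Q)) (cfc G (T * star T))) ∧
    ((∀ t, t ≤ e → G t = 0) → cfc G (T * star T) * (a - (w : Q) * b * star (w : Q)) = 0)

/-- the sequence algebra `Q = ℓ^∞(B)/c_0(B)`, with `L = ℓ^∞(B)` -/
def S_SEQ : Prop := ∀ (B : Type) [CStarAlgebra B], ∃ (L Q : Type) (_ : CStarAlgebra L)
  (_ : CStarAlgebra Q) (ev : ℕ → (L →⋆ₐ[ℂ] B)) (pr : L →⋆ₐ[ℂ] Q),
  (∀ x : ℕ → B, (∃ C : ℝ, ∀ k, ‖x k‖ ≤ C) → ∃ X : L, ∀ k, ev k X = x k) ∧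
  (∀ X Y : L, (∀ k, ev k X = ev k Y) → X = Y) ∧
  (∀ (X : L) (r : ℝ), ‖pr X‖ < r → ∀ᶠ k in Filter.atTop, ‖ev k X‖ < r) ∧
  ∀ (X : L) (r : ℝ), 0 ≤ r → (∀ᶠ k in Filter.atTop, ‖ev k X‖ ≤ r) → ‖pr X‖ ≤ r

/-- the zigzag lemma -/
def S_ZZ : Prop := ∀ (Q : Type) [CStarAlgebra Q] (M : ℕ) (ι : Type) (θ : ℕ → ι → Q) (ρ c : Q)
  (R : ℕ → Q) (E : ℝ), PC ρ → star c = c →
  (∀ G : ℝ → ℝ, Continuous G → G 0 = 0 → c * cfc G ρ = cfc G ρ ∧ cfc G ρ * c = cfc G ρ) →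
  R 0 = 1 → (∀ i, 1 ≤ i → i ≤ M → c * R i = 0) →
  (∀ i j, 1 ≤ i → i ≤ M → 1 ≤ j → j ≤ M → star (R i) * R j = if i = j then c * c else 0) →
  (∀ i l, i ≤ M → star (θ i l) = θ i l) → (∀ i l, i ≤ M → Commute (θ i l) ρ) →
  (∀ i j l, i ≤ M → j ≤ M → (θ i l - θ j l) * ρ = θ i l - θ j l) →
  (∀ i l, i ≤ M → θ 0 l * R i = R i * θ i l) →
  0 ≤ E → (∀ i l, i < M → ‖θ i l - θ (i + 1) l‖ ≤ E) →
  ∀ S : StarSubalgebra ℂ Q, (∀ i, i ≤ M → R i ∈ S) →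
  (∀ G : ℝ → ℝ, Continuous G → cfc G ρ ∈ S) →
  ∃ V : unitary Q, (V : Q) ∈ S ∧ ∀ l, ‖θ 0 l * (V : Q) - (V : Q) * θ M l‖ ≤ E

/-- the square of a semicircular element has no atom at `0` -/
def S_CUT : Prop := ∀ φ : C(unitInterval, ℝ), Function.Injective φ → ∀ ε : ℝ, 0 < ε →
  ∃ e : ℝ, 0 < e ∧ ∀ (B : Type) [CStarAlgebra B] (τ : B →ₗ[ℂ] ℂ)
    (g : C(unitInterval, ℂ) →⋆ₐ[ℂ] B), (∀ x, τ (g x) = leb x) →
    (τ (cfc (kp e 4) (g (cx φ) * g (cx φ)))).re < ε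

/-! ### DATA, CORE0, SETUP, CORE -/

/-- the standing assumptions -/
structure Std {A B : Type} [CStarAlgebra A] [CStarAlgebra B] (τA : A →ₗ[ℂ] ℂ) (τ : B →ₗ[ℂ] ℂ)
    (ι : A →⋆ₐ[ℂ] B) (S : StarSubalgebra ℂ A) (u1 : unitary A) (s1 : A) (u2 : unitary B)
    (s2 : B) : Prop where
  tr : ∀ x, τ (ι x) = τA x
  ped : PED A
  t1 : FTrip τA S u1 s1
  t2 : FTrip τ ι.range u2 s2
  cut : ∀ ε : ℝ, 0 < ε → ∃ e : ℝ, 0 < e ∧ (τA (cfc (kp e 4) (s1 * s1))).re < ε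

/-- the site tuples: `(1 - t σ) a` on the way from `a` to `(1 - σ) a = (1 - σ) b` and back to `b` -/
def site {Q : Type} [CStarAlgebra Q] (m : ℕ) (σ a b : Q) (i : ℕ) : Q :=
  if i ≤ m then (1 - (((i : ℝ) / m : ℝ) : ℂ) • σ) * a
  else (1 - (((2 * m - i : ℝ) / m : ℝ) : ℂ) • σ) * b

/-- the approximate data -/
def S_DATA : Prop := ∀ (A B : Type) [CStarAlgebra A] [CStarAlgebra B] (τA : A →ₗ[ℂ] ℂ)
  (τ : B →ₗ[ℂ] ℂ) (ι : A →⋆ₐ[ℂ] B) (S : StarSubalgebra ℂ A) (u1 : unitary A) (s1 : A)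
  (u2 : unitary B) (s2 : B), Std τA τ ι S u1 s1 u2 s2 → ∀ (n : ℕ)
  (φ ψ : C(Cube n, ℂ) →⋆ₐ[ℂ] A), (∀ f, φ f ∈ S) → (∀ f, ψ f ∈ S) → (∀ f, τA (φ f) = τA (ψ f)) →
  Function.Injective φ → ∀ m : ℕ, 1 ≤ m → ∀ δ : ℝ, 0 < δ →
  ∃ (w : unitary B) (P : B) (e : ℝ) (R : ℕ → B), 0 < e ∧ star P = P ∧ ‖P‖ ≤ 4 ∧
    (∀ i, ‖R i‖ ≤ 2) ∧
    (∀ l : Fin n, ∀ r : ℕ, r = 1 ∨ r = 2 ∨ r = 3 →
      ‖ι (φ (co l)) * cfc (kp e r) P - cfc (kp e r) P * ι (φ (co l))‖ ≤ δ ∧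
      ‖(w : B) * ι (ψ (co l)) * star (w : B) * cfc (kp e r) P -
        cfc (kp e r) P * ((w : B) * ι (ψ (co l)) * star (w : B))‖ ≤ δ) ∧
    (∀ l : Fin n, ‖(1 - cfc (kp e 1) P) *
      (ι (φ (co l)) - (w : B) * ι (ψ (co l)) * star (w : B))‖ ≤ δ) ∧
    (∀ i, 1 ≤ i → i ≤ 2 * m → ‖cfc (kp e 3) P * R i‖ ≤ δ) ∧
    (∀ i j, 1 ≤ i → i ≤ 2 * m → 1 ≤ j → j ≤ 2 * m →
      ‖star (R i) * R j - if i = j then cfc (kp e 3) P * cfc (kp e 3) P else 0‖ ≤ δ) ∧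
    ∀ (i : ℕ) (l : Fin n), 1 ≤ i → i ≤ 2 * m → ‖ι (φ (co l)) * R i -
      R i * site m (cfc (kp e 1) P) (ι (φ (co l)))
        ((w : B) * ι (ψ (co l)) * star (w : B)) i‖ ≤ δ

/-- approximate unitary equivalence under the standing assumptions -/
def S_CORE0 : Prop := ∀ (A B : Type) [CStarAlgebra A] [CStarAlgebra B] (τA : A →ₗ[ℂ] ℂ)
  (τ : B →ₗ[ℂ] ℂ) (ι : A →⋆ₐ[ℂ] B) (S : StarSubalgebra ℂ A) (u1 : unitary A) (s1 : A)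
  (u2 : unitary B) (s2 : B), Std τA τ ι S u1 s1 u2 s2 → ∀ (n : ℕ)
  (φ ψ : C(Cube n, ℂ) →⋆ₐ[ℂ] A), (∀ f, φ f ∈ S) → (∀ f, ψ f ∈ S) → (∀ f, τA (φ f) = τA (ψ f)) →
  Function.Injective φ → ∀ ε : ℝ, 0 < ε →
  ∃ v : unitary B, ∀ l : Fin n, ‖ι (φ (co l)) * (v : B) - (v : B) * ι (ψ (co l))‖ < ε

/-- the standing assumptions hold in the presence of infinitely many free copies of `C([0,1])` -/
def S_SETUP : Prop := ∀ (B : Type) [CStarAlgebra B] (τ : B →ₗ[ℂ] ℂ) (S : StarSubalgebra ℂ B)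
  (g : ℕ → (C(unitInterval, ℂ) →⋆ₐ[ℂ] B)), FTS τ → (∀ k x, τ (g k x) = leb x) →
  FreeFam τ (fun o : Option ℕ => o.elim S fun k => (g k).range) →
  ∃ (A : Type) (_ : CStarAlgebra A) (τA : A →ₗ[ℂ] ℂ) (ι : A →⋆ₐ[ℂ] B) (T : StarSubalgebra ℂ A)
    (u1 : unitary A) (s1 : A) (u2 : unitary B) (s2 : B), Std τA τ ι T u1 s1 u2 s2 ∧
    Function.Injective ι ∧ T.map ι = S

/-- from the coordinates to all functions -/
def S_COORD : Prop := ∀ (n : ℕ) (B : Type) [CStarAlgebra B] (φ ψ : C(Cube n, ℂ) →⋆ₐ[ℂ] B),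
  (∀ ε : ℝ, 0 < ε → ∃ v : unitary B, ∀ l : Fin n,
    ‖φ (co l) * (v : B) - (v : B) * ψ (co l)‖ < ε) →
  ∀ (F : Finset C(Cube n, ℂ)) (ε : ℝ), 0 < ε → ∃ v : unitary B, ∀ f ∈ F,
    ‖(v : B) * ψ f * star (v : B) - φ f‖ < ε

/-- the core theorem -/
def S_CORE : Prop := ∀ (B : Type) [CStarAlgebra B] (τ : B →ₗ[ℂ] ℂ) (S : StarSubalgebra ℂ B)
  (g : ℕ → (C(unitInterval, ℂ) →⋆ₐ[ℂ] B)), FTS τ → (∀ k x, τ (g k x) = leb x) →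
  FreeFam τ (fun o : Option ℕ => o.elim S fun k => (g k).range) →
  ∀ (n : ℕ) (φ ψ : C(Cube n, ℂ) →⋆ₐ[ℂ] B), (∀ f, φ f ∈ S) → (∀ f, ψ f ∈ S) →
  (∀ f, τ (φ f) = τ (ψ f)) → Function.Injective φ →
  ∀ (F : Finset C(Cube n, ℂ)) (ε : ℝ), 0 < ε → ∃ v : unitary B, ∀ f ∈ F,
    ‖(v : B) * φ f * star (v : B) - ψ f‖ < ε

/-! ### reduction and applications -/

/-- the uniqueness theorem for maps into a reduced free product with infinitely many copies of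
`C([0,1])` -/
def S_UW : Prop := ∀ (J : Type) (D : J → Type) [∀ j, CStarAlgebra (D j)] (t : ∀ j, D j → ℂ)
  (B : Type) [CStarAlgebra B] (τ : B →ₗ[ℂ] ℂ) (e : ∀ j, D j →⋆ₐ[ℂ] B)
  (f : ℕ → (C(unitInterval, ℂ) →⋆ₐ[ℂ] B)), RFPw D t τ e f →
  ∀ (n : ℕ) (φ ψ : C(Cube n, ℂ) →⋆ₐ[ℂ] B), Function.Injective φ →
  (∀ x, τ (φ x) = τ (ψ x)) → ∀ (F : Finset C(Cube n, ℂ)) (ε : ℝ), 0 < ε →
  ∃ v : unitary B, ∀ x ∈ F, ‖(v : B) * φ x * star (v : B) - ψ x‖ < ε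

/-- `B * C([0,1])^{*∞} ≅ B` by an isomorphism which is almost the identity on a given finite set,
if `B` has infinitely many free copies of `C([0,1])` -/
def S_DBL : Prop := ∀ (J : Type) (D : J → Type) [∀ j, CStarAlgebra (D j)] (t : ∀ j, D j → ℂ)
  (B : Type) [CStarAlgebra B] (τ : B →ₗ[ℂ] ℂ) (e : ∀ j, D j →⋆ₐ[ℂ] B)
  (f : ℕ → (C(unitInterval, ℂ) →⋆ₐ[ℂ] B)), RFPw D t τ e f →
  ∀ (F : Finset B) (ε : ℝ), 0 < ε →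
  ∃ (B' : Type) (_ : CStarAlgebra B') (τ' : B' →ₗ[ℂ] ℂ) (ι : B →⋆ₐ[ℂ] B')
    (g : ℕ → (C(unitInterval, ℂ) →⋆ₐ[ℂ] B')) (Φ : B' ≃⋆ₐ[ℂ] B), FTS τ' ∧
    Function.Injective ι ∧ (∀ x, τ' (ι x) = τ x) ∧ (∀ k x, τ' (g k x) = leb x) ∧
    FreeFam τ' (fun o : Option ℕ => o.elim ι.range fun k => (g k).range) ∧
    ∀ x ∈ F, ‖Φ (ι x) - x‖ < ε

/-- the Lebesgue integral on the cube -/
def lebn (n : ℕ) (f : C(Cube n, ℂ)) : ℂ := ∫ x : Cube n, f x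

/-- a measure preserving curve in the cube -/
def S_HC : Prop := ∀ n : ℕ, 1 ≤ n → ∃ p : C(unitInterval, Cube n),
  ∀ f : C(Cube n, ℂ), ∫ t : unitInterval, f (p t) = lebn n f

/-- the Lebesgue integral on the cube is a faithful tracial state -/
def S_LEBN : Prop := ∀ n : ℕ, ∃ t : C(Cube n, ℂ) →ₗ[ℂ] ℂ, FTS t ∧ ∀ f, t f = lebn n f

/-- `C([0,1]^n)` is approximately conjugate into the copies of `C([0,1])` -/
def S_CJN : Prop := ∀ n : ℕ, 1 ≤ n → CJ C(Cube n, ℂ) (lebn n)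

/-- absorption of `C([0,1]^n)` -/
def S_ABSN : Prop := ∀ (J : Type) (D : J → Type) [∀ j, CStarAlgebra (D j)] (t : ∀ j, D j → ℂ)
  (n : ℕ), 1 ≤ n → ∀ (B : Type) [CStarAlgebra B] (τ : B →ₗ[ℂ] ℂ) (e : ∀ j, D j →⋆ₐ[ℂ] B)
  (d : C(Cube n, ℂ) →⋆ₐ[ℂ] B) (f : ℕ → (C(unitInterval, ℂ) →⋆ₐ[ℂ] B)), FTS τ →
  (∀ j x, τ (e j x) = t j x) → (∀ x, τ (d x) = lebn n x) → (∀ k x, τ (f k x) = leb x) →
  FreeFam τ (fun o : J ⊕ Option ℕ =>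
    o.elim (fun j => (e j).range) fun o => o.elim d.range fun k => (f k).range) →
  (StarAlgebra.adjoin ℂ ((⋃ j, Set.range (e j)) ∪ Set.range d ∪ ⋃ k, Set.range (f k))
    ).topologicalClosure = ⊤ →
  ∃ f' : ℕ → (C(unitInterval, ℂ) →⋆ₐ[ℂ] B), RFPw D t τ e f'

end Pool.Agent.N300.UN
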