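import Pool.Agent.H923R2.FZ.All
import Pool.Agent.N833.UN.Fock
import Pool.Agent.N123.UN.C12
import Pool.Agent.N547.UN.LawCut
import Pool.Agent.N194.UN.TT
import Pool.Agent.N701.UN.Alg1
import Pool.Agent.N839.UN.Seq
import Pool.Agent.N861.UN.ZZ
import Pool.Agent.N717.UN.SETUP
import Pool.Agent.N726.UN.Coord
import Pool.Agent.N207.UN.Dbl
import Pool.Agent.N768.UN.HC
import Pool.Agent.N272.UN.CJN
import Pool.Agent.N207.UN.Absn
import Pool.Agent.N157.UN.LEBP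
import Pool.Agent.N272.UN.RES47
import Pool.Agent.N46.UN.RES1C
import Pool.Agent.N300.UN.TCORE
import Pool.Agent.N300.UN.TCORE0
import Pool.Agent.N300.UN.TDATA
import Pool.Agent.N300.UN.TUW

/-! Assembly of the tasks of project UN. -/

set_option autoImplicit false

noncomputable section

namespace Pool.Agent.N300.UN.All

open Pool.Agent.H923R2.FP Pool.Agent.H923R2.FZ Pool.Agent.N300.UN

theorem fock : S_FOCK := Pool.Agent.N833.UN.t_FOCK
theorem lawm : S_LAWM := Pool.Agent.N547.UN.t_LAWM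
theorem cut : S_CUT := Pool.Agent.N547.UN.t_CUT
theorem c12 : S_C12 := Pool.Agent.N123.UN.t_C12 fock
theorem c3 : Pool.Agent.N300.UN.S_C3 := Pool.Agent.N123.UN.t_C3 fock lawm
theorem pou : S_POU := Pool.Agent.N194.UN.t_POU
theorem tt : S_TT := Pool.Agent.N194.UN.t_TT c12 c3 pou
theorem alg1 : S_ALG1 := Pool.Agent.N701.UN.t_ALG1
theorem seq : Pool.Agent.N300.UN.S_SEQ := Pool.Agent.N839.UN.t_SEQ
theorem data : S_DATA := T_DATA.t_DATA c12 pou tt alg1 seq lawm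
theorem zz : S_ZZ := Pool.Agent.N861.UN.t_ZZ
theorem core0 : S_CORE0 := T_CORE0.t_CORE0 data zz seq
theorem setup : S_SETUP := Pool.Agent.N717.UN.t_SETUP cut
theorem coord : S_COORD := Pool.Agent.N726.UN.t_COORD
theorem core : S_CORE := T_CORE.t_CORE setup core0 coord
theorem dbl : S_DBL := Pool.Agent.N207.UN.t_DBL
theorem uw : S_UW := T_UW.t_UW core dbl
theorem hc : S_HC := Pool.Agent.N768.UN.t_HC
theorem lebnt : S_LEBN := Pool.Agent.N768.UN.t_LEBN
theorem cjn : S_CJN := Pool.Agent.N272.UN.t_CJN core hc T_GRP2.t_GRP2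
theorem absn : S_ABSN := Pool.Agent.N207.UN.t_ABSN cjn Pool.Agent.H923R2.FZ.All.hot T_GRP2.t_GRP2 T_UNG2.t_UNG2
  T_SUB.t_SUB T_CLO.t_CLO
theorem lebp : S_LEBP := Pool.Agent.N157.UN.t_LEBP
theorem res47 : S_RES47 := Pool.Agent.N272.UN.t_RES47 absn T_UNG2.t_UNG2 Pool.Agent.H923R2.FP.All.uniq
theorem res1c : S_RES1C := Pool.Agent.N46.UN.t_RES1C absn lebp Pool.Agent.H923R2.FZ.All.absi Pool.Agent.H923R2.FZ.All.ex
  Pool.Agent.H923R2.FP.All.uniq T_UNG2.t_UNG2 T_GRP2.t_GRP2 T_SUB.t_SUB T_CLO.t_CLO T_LEBF.t_LEBF lebnt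
  T_SEPW.t_SEPW

end Pool.Agent.N300.UN.All
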