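import Pool.Agent.N300.UN.Stubs

set_option autoImplicit false

open scoped ComplexConjugate

noncomputable section

namespace Pool.Agent.N300.UN

open Pool.Agent.H923R2.FP Pool.Agent.H923R2.FZ

/-! ### cutoff functions -/

theorem kp_cont (e : ℝ) (r : ℕ) : Continuous (kp e r) := by
  unfold kp; fun_prop

theorem kp_01 (e : ℝ) (r : ℕ) (t : ℝ) : 0 ≤ kp e r t ∧ kp e r t ≤ 1 := by
  unfold kp
  exact ⟨le_max_left _ _, max_le zero_le_one (min_le_left _ _)⟩

theorem kp_one {e : ℝ} (he : 0 < e) (r : ℕ) {t : ℝ} (ht : t ≤ r * e) : kp e r t = 1 := by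
  unfold kp
  have h1 : t / e ≤ r := by rwa [div_le_iff₀ he]
  rw [min_eq_left (by linarith), max_eq_right zero_le_one]

theorem kp_zero {e : ℝ} (he : 0 < e) (r : ℕ) {t : ℝ} (ht : (r + 1) * e ≤ t) : kp e r t = 0 := by
  unfold kp
  have h1 : (r : ℝ) + 1 ≤ t / e := by rwa [le_div_iff₀ he]
  rw [max_eq_left]
  exact (min_le_right _ _).trans (by linarith)

theorem kp_mul {e : ℝ} (he : 0 < e) {r r' : ℕ} (h : r < r') (t : ℝ) :
    kp e r' t * kp e r t = kp e r t := by
  rcases le_total t (r' * e) with ht | ht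
  · rw [kp_one he r' ht, one_mul]
  · have h1 : ((r : ℝ) + 1) ≤ r' := by exact_mod_cast h
    rw [kp_zero he r (by nlinarith), mul_zero]

section calg

variable {B : Type} [CStarAlgebra B]

theorem cont_hom {A : Type} [CStarAlgebra A] (f : A →⋆ₐ[ℂ] B) : Continuous f :=
  AddMonoidHomClass.continuous_of_bound f 1 fun x => by
    rw [one_mul]; exact NonUnitalStarAlgHom.norm_apply_le f x

theorem star_cfc (T : B) (f : ℝ → ℝ) : star (cfc f T) = cfc f T :=
  (cfc_predicate (R := ℝ) f T : IsSelfAdjoint (cfc f T)).star_eq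

theorem cmul (T : B) (f g : ℝ → ℝ) (hf : Continuous f)
    (hg : Continuous g) : cfc f T * cfc g T = cfc (fun t => f t * g t) T :=
  (cfc_mul f g T hf.continuousOn hg.continuousOn).symm

theorem norm_cfc_le_one (T : B) (f : ℝ → ℝ) (h : ∀ t, |f t| ≤ 1) : ‖cfc f T‖ ≤ 1 :=
  norm_cfc_le zero_le_one fun t _ => by rw [Real.norm_eq_abs]; exact h t

theorem norm_kp (T : B) (e : ℝ) (r : ℕ) : ‖cfc (kp e r) T‖ ≤ 1 :=
  norm_cfc_le_one T _ fun t => by
    rw [abs_of_nonneg (kp_01 e r t).1]; exact (kp_01 e r t).2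

/-- a criterion for `PC` -/
theorem pc_of (x y z : B) (h1 : star y * y = x) (h2 : star z * z = 1 - x) : PC x := by
  subst h1
  refine ⟨IsSelfAdjoint.star_mul_self y, ?_⟩
  intro t ht
  refine ⟨spectrum_star_mul_self_nonneg t ht, ?_⟩
  have h3 : 1 - t ∈ spectrum ℝ (1 - star y * y) := by
    have h4 : (1 : ℝ) - t ∈ spectrum ℝ (algebraMap ℝ B 1 - star y * y) := by
      rw [spectrum.mem_iff] at ht ⊢
      intro hu
      apply ht
      have : algebraMap ℝ B t - star y * y = -(algebraMap ℝ B (1 - t) -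
          (algebraMap ℝ B 1 - star y * y)) := by
        rw [map_sub]; abel
      rw [this]
      exact hu.neg
    rwa [map_one] at h4
  rw [← h2] at h3
  have h4 := spectrum_star_mul_self_nonneg _ h3
  linarith

/-- an approximate unitary is close to a unitary -/
theorem near_unitary (x : B) (η : ℝ) (h0 : η < 1) (h1 : ‖star x * x - 1‖ ≤ η)
    (h2 : ‖x * star x - 1‖ ≤ η) : ∃ y : unitary B, ‖x - y‖ ≤ η := by
  set k : B := star x * x with hk
  have hksa : IsSelfAdjoint k := IsSelfAdjoint.star_mul_self x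
  have hku : IsUnit k := by
    have := Units.oneSub (1 - k) (by rw [norm_sub_rev]; exact h1.trans_lt h0)
    have h3 : IsUnit (1 - (1 - k)) :=
      ⟨Units.oneSub (1 - k) (by rw [norm_sub_rev]; exact h1.trans_lt h0), by simp⟩
    rwa [sub_sub_cancel] at h3
  have hku2 : IsUnit (x * star x) := by
    have h3 : IsUnit (1 - (1 - x * star x)) :=
      ⟨Units.oneSub (1 - x * star x) (by rw [norm_sub_rev]; exact h2.trans_lt h0), by simp⟩
    rwa [sub_sub_cancel] at h3
  have hx : IsUnit x := by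
    obtain ⟨u, hu⟩ := hku
    obtain ⟨v, hv⟩ := hku2
    have e1 : ((u⁻¹ : Bˣ) : B) * star x * x = 1 := by
      rw [mul_assoc, ← hk, ← hu]; simp
    have e2 : x * (star x * ((v⁻¹ : Bˣ) : B)) = 1 := by
      rw [← mul_assoc, ← hv]; simp
    refine ⟨⟨x, star x * ((v⁻¹ : Bˣ) : B), e2, ?_⟩, rfl⟩
    have e3 : ((u⁻¹ : Bˣ) : B) * star x = star x * ((v⁻¹ : Bˣ) : B) :=
      left_inv_eq_right_inv e1 e2
    rw [← e3]; exact e1
  have hk0 : ∀ t ∈ spectrum ℝ k, 0 < t := by
    intro t ht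
    rcases (spectrum_star_mul_self_nonneg t ht).lt_or_eq with h3 | h3
    · exact h3
    · exact absurd ((spectrum.zero_notMem_iff ℝ).2 hku) (by rw [h3]; exact fun h => h ht)
  have c1 : ContinuousOn (fun t : ℝ => √t) (spectrum ℝ k) := Real.continuous_sqrt.continuousOn
  have c3 : ContinuousOn (fun t : ℝ => (√t)⁻¹) (spectrum ℝ k) :=
    c1.inv₀ (fun t ht => (Real.sqrt_pos.2 (hk0 t ht)).ne')
  set p : B := cfc (fun t : ℝ => √t) k with hp
  set h : B := cfc (fun t : ℝ => (√t)⁻¹) k with hh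
  have hpp : p * p = k := by
    rw [hp, ← cfc_mul _ _ k c1 c1]
    conv_rhs => rw [← cfc_id' ℝ k hksa]
    refine cfc_congr fun t ht => ?_
    exact Real.mul_self_sqrt (hk0 t ht).le
  have hph : p * h = 1 := by
    rw [hp, hh, ← cfc_mul _ _ k c1 c3, ← cfc_one ℝ k]
    refine cfc_congr fun t ht => ?_
    exact mul_inv_cancel₀ (Real.sqrt_pos.2 (hk0 t ht)).ne'
  have hhp : h * p = 1 := by
    rw [hp, hh, ← cfc_mul _ _ k c3 c1, ← cfc_one ℝ k]
    refine cfc_congr fun t ht => ?_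
    exact inv_mul_cancel₀ (Real.sqrt_pos.2 (hk0 t ht)).ne'
  have hhs : star h = h := star_cfc _ _
  have hw1 : star (x * h) * (x * h) = 1 := by
    rw [star_mul, hhs]
    calc h * star x * (x * h) = h * (star x * x) * h := by simp only [mul_assoc]
      _ = h * (p * p) * h := by rw [← hk, hpp]
      _ = (h * p) * (p * h) := by simp only [mul_assoc]
      _ = 1 := by rw [hhp, hph, one_mul]
  have hhu : IsUnit h := ⟨⟨h, p, hhp, hph⟩, rfl⟩
  have hwu : IsUnit (x * h) := hx.mul hhu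
  have hw2 : (x * h) * star (x * h) = 1 := by
    obtain ⟨u, hu'⟩ := hwu
    rw [← hu'] at hw1 ⊢
    have : star (u : B) = ((u⁻¹ : Bˣ) : B) := by
      calc star (u : B) = star (u : B) * ((u : B) * ((u⁻¹ : Bˣ) : B)) := by simp
        _ = (star (u : B) * (u : B)) * ((u⁻¹ : Bˣ) : B) := by rw [mul_assoc]
        _ = ((u⁻¹ : Bˣ) : B) := by rw [hw1, one_mul]
    rw [this]
    simp
  let w : unitary B := ⟨x * h, Unitary.mem_iff.2 ⟨hw1, hw2⟩⟩
  refine ⟨w, ?_⟩
  have e1 : x - (w : B) = (w : B) * (p - 1) := by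
    change x - x * h = x * h * (p - 1)
    rw [mul_sub, mul_one, mul_assoc, hhp, mul_one]
  rw [e1, CStarRing.norm_coe_unitary_mul]
  have e2 : p - 1 = cfc (fun t : ℝ => √t - 1) k := by
    rw [hp, cfc_sub (fun t : ℝ => √t) (fun _ => (1 : ℝ)) k c1 continuousOn_const,
      cfc_const_one ℝ k hksa]
  have e3 : k - 1 = cfc (fun t : ℝ => t - 1) k := by
    rw [cfc_sub (fun t : ℝ => t) (fun _ => (1 : ℝ)) k continuousOn_id continuousOn_const,
      cfc_const_one ℝ k hksa, cfc_id' ℝ k hksa]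
  have hη : 0 ≤ η := (norm_nonneg _).trans h1
  rw [e2]
  refine norm_cfc_le hη fun t ht => ?_
  have e4 : ‖t - 1‖ ≤ η := by
    have := norm_apply_le_norm_cfc (fun t : ℝ => t - 1) k ht (by fun_prop) hksa
    rw [← e3] at this
    exact this.trans h1
  have ht0 := hk0 t ht
  have e5 : t - 1 = (√t - 1) * (√t + 1) := by
    have := Real.mul_self_sqrt ht0.le
    nlinarith
  rw [e5, norm_mul] at e4
  have e6 : 1 ≤ ‖√t + 1‖ := by
    rw [Real.norm_eq_abs, abs_of_nonneg (by positivity)]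
    have := Real.sqrt_nonneg t
    linarith
  calc ‖√t - 1‖ ≤ ‖√t - 1‖ * ‖√t + 1‖ := le_mul_of_one_le_right (norm_nonneg _) e6
    _ ≤ η := e4

end calg

/-! ### the sequence algebra -/

section seq

variable {B L Q : Type} [CStarAlgebra B] [CStarAlgebra L] [CStarAlgebra Q]
  (ev : ℕ → (L →⋆ₐ[ℂ] B)) (pr : L →⋆ₐ[ℂ] Q)

theorem null_of (hn : ∀ (X : L) (r : ℝ), 0 ≤ r → (∀ᶠ k in Filter.atTop, ‖ev k X‖ ≤ r) → ‖pr X‖ ≤ r)
    (X : L) (C : ℝ) (h : ∀ k, ‖ev k X‖ ≤ C * (1 / ((k : ℝ) + 1))) : pr X = 0 := by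
  rw [← norm_le_zero_iff]
  refine le_of_forall_pos_le_add fun r hr => ?_
  rw [zero_add]
  refine hn X r hr.le ?_
  have h1 : Filter.Tendsto (fun k : ℕ => C * (1 / ((k : ℝ) + 1))) Filter.atTop (nhds (C * 0)) :=
    tendsto_one_div_add_atTop_nhds_zero_nat.const_mul C
  rw [mul_zero] at h1
  filter_upwards [h1.eventually (gt_mem_nhds hr)] with k hk
  exact (h k).trans hk.le

theorem eq_of (hn : ∀ (X : L) (r : ℝ), 0 ≤ r → (∀ᶠ k in Filter.atTop, ‖ev k X‖ ≤ r) → ‖pr X‖ ≤ r)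
    (X Y : L) (C : ℝ) (h : ∀ k, ‖ev k X - ev k Y‖ ≤ C * (1 / ((k : ℝ) + 1))) : pr X = pr Y := by
  rw [← sub_eq_zero, ← map_sub]
  refine null_of ev pr hn _ C fun k => ?_
  rw [map_sub]
  exact h k

end seq

end Pool.Agent.N300.UN
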