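import Pool.Agent.N300.UN.Basic
import Pool.Agent.H154R5.FP_T1

set_option autoImplicit false

open scoped ComplexConjugate

noncomputable section

namespace Pool.Agent.N300.UN.T_DATA

open Pool.Agent.H923R2.FP Pool.Agent.H923R2.FZ Pool.Agent.N300.UN

section est

variable {B : Type} [CStarAlgebra B] {τ : B →ₗ[ℂ] ℂ}

theorem tr_real (hτ : FTS τ) (x : B) (hx : star x = x) : ((τ x).re : ℂ) = τ x := by
  have h1 := hτ.str x
  rw [hx] at h1
  exact Complex.conj_eq_iff_re.1 h1.symm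

theorem tr_sq (hτ : FTS τ) (x : B) : ((τ (star x * x)).re : ℂ) = τ (star x * x) :=
  tr_real hτ _ (by rw [star_mul, star_star])

theorem tr_sq' (hτ : FTS τ) (x : B) : ((τ (x * star x)).re : ℂ) = τ (x * star x) :=
  tr_real hτ _ (by rw [star_mul, star_star])

theorem nonneg' (hτ : FTS τ) (x : B) : 0 ≤ (τ (x * star x)).re := by
  rw [hτ.comm]; exact hτ.nonneg x

theorem nsum_le {ι : Type} [Fintype ι] (t : ι → ℝ) (y : ι → B) (r : ℝ)
    (h : ∀ a, 0 ≤ t a ∧ t a ≤ r) :
    ‖∑ a, ((t a : ℝ) : ℂ) • (star (y a) * y a)‖ ≤ r * ‖∑ a, star (y a) * y a‖ := by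
  let _ := CStarAlgebra.spectralOrder B
  let _ := CStarAlgebra.spectralOrderedRing B
  by_cases hι : Nonempty ι
  swap
  · haveI := not_nonempty_iff.1 hι
    simp
  have hr : 0 ≤ r := (h hι.some).1.trans (h hι.some).2
  have h1 : ∀ a, (0 : B) ≤ star (y a) * y a := fun a => star_mul_self_nonneg _
  have h2 : ∀ a, ((t a : ℝ) : ℂ) • (star (y a) * y a) = (t a) • (star (y a) * y a) := fun a =>
    Complex.coe_smul _ _
  have h3 : ∑ a, ((t a : ℝ) : ℂ) • (star (y a) * y a) = ∑ a, (t a) • (star (y a) * y a) :=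
    Finset.sum_congr rfl fun a _ => h2 a
  rw [h3]
  have h4 : (0 : B) ≤ ∑ a, (t a) • (star (y a) * y a) :=
    Finset.sum_nonneg fun a _ => smul_nonneg (h a).1 (h1 a)
  have h5 : ∑ a, (t a) • (star (y a) * y a) ≤ r • ∑ a, star (y a) * y a := by
    rw [Finset.smul_sum]
    exact Finset.sum_le_sum fun a _ => smul_le_smul_of_nonneg_right (h a).2 (h1 a)
  have h6 := CStarAlgebra.norm_le_norm_of_nonneg_of_le h4 h5
  rwa [norm_smul, Real.norm_of_nonneg hr] at h6

theorem nL_le (hτ : FTS τ) {ι : Type} [Fintype ι] (x y : ι → B) (r : ℝ)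
    (h : ∀ a, (τ (star (x a) * x a)).re ≤ r) :
    nL τ x y ≤ √(r * ‖∑ a, star (y a) * y a‖) := by
  unfold nL
  refine Real.sqrt_le_sqrt ?_
  have h1 : ∑ a, τ (star (x a) * x a) • (star (y a) * y a) =
      ∑ a, (((τ (star (x a) * x a)).re : ℝ) : ℂ) • (star (y a) * y a) :=
    Finset.sum_congr rfl fun a _ => by rw [tr_sq hτ]
  rw [h1]
  exact nsum_le _ _ _ fun a => ⟨hτ.nonneg _, h a⟩

theorem nL_le' (hτ : FTS τ) {ι : Type} [Fintype ι] (x y : ι → B)
    (h : ∀ a, (τ (star (x a) * x a)).re ≤ 1) (hy : ∀ a, ‖y a‖ ≤ 1) :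
    nL τ x y ≤ √(Fintype.card ι) := by
  refine (nL_le hτ x y 1 h).trans (Real.sqrt_le_sqrt ?_)
  rw [one_mul]
  calc ‖∑ a, star (y a) * y a‖ ≤ ∑ a, ‖star (y a) * y a‖ := norm_sum_le _ _
    _ ≤ ∑ _a : ι, (1 : ℝ) := Finset.sum_le_sum fun a _ => by
        rw [CStarRing.norm_star_mul_self]
        exact mul_le_one₀ (hy a) (norm_nonneg _) (hy a)
    _ = Fintype.card ι := by simp

theorem nM_le (hτ : FTS τ) {ι : Type} [Fintype ι] (x y : ι → B) (η K : ℝ) (hη : 0 ≤ η)
    (hK : 0 ≤ K) (h : ∀ a, (τ (y a * star (y a))).re ≤ η) (hx : ∀ a, ‖x a‖ ≤ K) :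
    nM τ x y ≤ √(Fintype.card ι * η) * K := by
  unfold nM
  have h1 : ‖∑ a, τ (y a * star (y a)) • (x a * star (x a))‖ ≤ Fintype.card ι * η * K ^ 2 := by
    calc _ ≤ ∑ a, ‖τ (y a * star (y a)) • (x a * star (x a))‖ := norm_sum_le _ _
      _ ≤ ∑ _a : ι, η * K ^ 2 := Finset.sum_le_sum fun a _ => by
          rw [norm_smul, ← tr_sq' hτ, Complex.norm_real, Real.norm_of_nonneg (nonneg' hτ _),
            CStarRing.norm_self_mul_star, sq]
          have := hx a
          have h0 := norm_nonneg (x a)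
          have h2 := nonneg' hτ (y a)
          have h3 := h a
          gcongr
      _ = Fintype.card ι * η * K ^ 2 := by simp [mul_assoc]
  calc √‖∑ a, τ (y a * star (y a)) • (x a * star (x a))‖ ≤ √(Fintype.card ι * η * K ^ 2) :=
        Real.sqrt_le_sqrt h1
    _ = √(Fintype.card ι * η) * K := by
        rw [Real.sqrt_mul (by positivity), Real.sqrt_sq hK]

theorem tr_mono (hτ : FTS τ) (P : B) (F G : ℝ → ℝ) (hP : star P = P)
    (hF : Continuous F) (hG : Continuous G) (h : ∀ t, F t ≤ G t) :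
    (τ (cfc F P)).re ≤ (τ (cfc G P)).re := by
  have h1 : star (cfc (fun t => √(G t - F t)) P) * cfc (fun t => √(G t - F t)) P =
      cfc G P - cfc F P := by
    rw [star_cfc, cmul _ _ _ (by fun_prop) (by fun_prop),
      ← cfc_sub G F P hG.continuousOn hF.continuousOn]
    congr 1
    funext t
    exact Real.mul_self_sqrt (sub_nonneg.2 (h t))
  have h2 := hτ.nonneg (cfc (fun t => √(G t - F t)) P)
  rw [h1, map_sub, Complex.sub_re] at h2
  linarith

/-- `τ((x y)* (x y)) ≤ ‖x‖² τ(y* y)` -/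
theorem tr_left (hτ : FTS τ) (x y : B) :
    (τ (star (x * y) * (x * y))).re ≤ ‖x‖ ^ 2 * (τ (star y * y)).re := by
  obtain ⟨-, -, h1, -, -, -, h2, h3⟩ := T_T1.t_T1 B τ hτ
  have e1 : ∀ z : B, (τ (star z * z)).re = nt τ z ^ 2 := fun z => by
    unfold nt
    rw [Real.sq_sqrt (hτ.nonneg z)]
  rw [e1, e1, ← mul_pow]
  have := h1 x y
  have h4 := h3 (x * y)
  gcongr

/-- `τ((x y)* (x y)) ≤ τ(x* x) ‖y‖²` -/
theorem tr_right (hτ : FTS τ) (x y : B) :
    (τ (star (x * y) * (x * y))).re ≤ (τ (star x * x)).re * ‖y‖ ^ 2 := by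
  have h1 := tr_left hτ (star y) (star x)
  rw [norm_star, star_star] at h1
  have h2 : τ (star (star y * star x) * (star y * star x)) = τ (star (x * y) * (x * y)) := by
    rw [← star_mul, star_star, hτ.comm]
  rw [h2, hτ.comm x] at h1
  linarith

end est

/-! ### algebra of `RT` -/

section rt

variable {B : Type} [CStarAlgebra B] (u : unitary B) (s : B) {ι : Type} [Fintype ι] (n : ι → ℕ)

theorem RT_left (c : B) (x y : ι → B) : c * RT u s n x y = RT u s n (fun a => c * x a) y := by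
  unfold RT
  rw [Finset.mul_sum]
  refine Finset.sum_congr rfl fun a _ => ?_
  simp only [mul_assoc]

theorem RT_right (c : B) (x y : ι → B) : RT u s n x y * c = RT u s n x (fun a => y a * c) := by
  unfold RT
  rw [Finset.sum_mul]
  refine Finset.sum_congr rfl fun a _ => ?_
  simp only [mul_assoc]

end rt

end Pool.Agent.N300.UN.T_DATA
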