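import Pool.Agent.N300.UN.DataA

set_option autoImplicit false

open scoped ComplexConjugate

noncomputable section

namespace Pool.Agent.N300.UN.T_DATA

open Pool.Agent.H923R2.FP Pool.Agent.H923R2.FZ Pool.Agent.N300.UN

/-- the properties of the sequence algebra -/
structure SQ {B L Q : Type} [CStarAlgebra B] [CStarAlgebra L] [CStarAlgebra Q]
    (ev : ℕ → (L →⋆ₐ[ℂ] B)) (pr : L →⋆ₐ[ℂ] Q) : Prop where
  lf : ∀ x : ℕ → B, (∃ C : ℝ, ∀ k, ‖x k‖ ≤ C) → ∃ X : L, ∀ k, ev k X = x k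
  ext : ∀ X Y : L, (∀ k, ev k X = ev k Y) → X = Y
  lt : ∀ (X : L) (r : ℝ), ‖pr X‖ < r → ∀ᶠ k in Filter.atTop, ‖ev k X‖ < r
  le : ∀ (X : L) (r : ℝ), 0 ≤ r → (∀ᶠ k in Filter.atTop, ‖ev k X‖ ≤ r) → ‖pr X‖ ≤ r

section seq

variable {B L Q : Type} [CStarAlgebra B] [CStarAlgebra L] [CStarAlgebra Q]
  {ev : ℕ → (L →⋆ₐ[ℂ] B)} {pr : L →⋆ₐ[ℂ] Q}

/-- sequences of homomorphisms -/
theorem SQ.hom (h : SQ ev pr) {C : Type} [CStarAlgebra C] (χ : ℕ → (C →⋆ₐ[ℂ] B)) :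
    ∃ X : C →⋆ₐ[ℂ] L, ∀ f k, ev k (X f) = χ k f := by
  have h1 : ∀ f : C, ∃ X : L, ∀ k, ev k X = χ k f := fun f => h.lf _ ⟨‖f‖, fun k =>
    NonUnitalStarAlgHom.norm_apply_le (χ k) f⟩
  choose X hX using h1
  exact ⟨{
    toFun := X
    map_one' := h.ext _ _ fun k => by rw [hX, map_one, map_one]
    map_mul' := fun f g => h.ext _ _ fun k => by rw [hX, map_mul, map_mul, hX, hX]
    map_zero' := h.ext _ _ fun k => by rw [hX, map_zero, map_zero]
    map_add' := fun f g => h.ext _ _ fun k => by rw [hX, map_add, map_add, hX, hX]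
    commutes' := fun r => h.ext _ _ fun k => by
      rw [hX, AlgHomClass.commutes, AlgHomClass.commutes]
    map_star' := fun f => h.ext _ _ fun k => by rw [hX, map_star, map_star, hX] }, hX⟩

theorem SQ.ev_cfc (X : L) (hX : star X = X) (G : ℝ → ℝ) (hG : Continuous G) (k : ℕ) :
    ev k (cfc G X) = cfc G (ev k X) :=
  (ev k).map_cfc G X hG.continuousOn (cont_hom (ev k)) hX (IsSelfAdjoint.map hX (ev k))

theorem SQ.pr_cfc (X : L) (hX : star X = X) (G : ℝ → ℝ) (hG : Continuous G) :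
    pr (cfc G X) = cfc G (pr X) :=
  pr.map_cfc G X hG.continuousOn (cont_hom pr) hX (IsSelfAdjoint.map hX pr)

/-- the lifted sum `∑ X_a U^{n_a + 1} s U^{n_a + 1} Y_a` -/
def RL (U s : L) {ι : Type} [Fintype ι] (n : ι → ℕ) (X Y : ι → L) : L :=
  ∑ a, X a * (U ^ (n a + 1) * s * U ^ (n a + 1)) * Y a

variable {U s : L} {u2 : unitary B} {s2 : B} {ι : Type} [Fintype ι] {n : ι → ℕ}

theorem ev_RL (hU : ∀ k, ev k U = u2) (hs : ∀ k, ev k s = s2) (X Y : ι → L) (k : ℕ) :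
    ev k (RL U s n X Y) = RT u2 s2 n (fun a => ev k (X a)) (fun a => ev k (Y a)) := by
  unfold RL RT
  simp only [map_sum, map_mul, map_pow, hU, hs]

theorem RL_left (c : L) (X Y : ι → L) : c * RL U s n X Y = RL U s n (fun a => c * X a) Y := by
  unfold RL
  rw [Finset.mul_sum]
  refine Finset.sum_congr rfl fun a _ => ?_
  simp only [mul_assoc]

theorem RL_right (c : L) (X Y : ι → L) : RL U s n X Y * c = RL U s n X (fun a => Y a * c) := by
  unfold RL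
  rw [Finset.sum_mul]
  refine Finset.sum_congr rfl fun a _ => ?_
  simp only [mul_assoc]

theorem RL_add_right (X Y Y' : ι → L) :
    RL U s n X (fun a => Y a + Y' a) = RL U s n X Y + RL U s n X Y' := by
  unfold RL
  rw [← Finset.sum_add_distrib]
  exact Finset.sum_congr rfl fun a _ => by rw [mul_add]

theorem RL_sub_right (X Y Y' : ι → L) :
    RL U s n X (fun a => Y a - Y' a) = RL U s n X Y - RL U s n X Y' := by
  unfold RL
  rw [← Finset.sum_sub_distrib]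
  exact Finset.sum_congr rfl fun a _ => by rw [mul_sub]

theorem RL_sub_left (X X' Y : ι → L) :
    RL U s n (fun a => X a - X' a) Y = RL U s n X Y - RL U s n X' Y := by
  unfold RL
  rw [← Finset.sum_sub_distrib]
  exact Finset.sum_congr rfl fun a _ => by rw [sub_mul, sub_mul]

theorem RL_smul (X Y : ι → L) (c : ι → ℂ) :
    RL U s n (fun a => c a • X a) Y = RL U s n X (fun a => c a • Y a) := by
  unfold RL
  refine Finset.sum_congr rfl fun a _ => ?_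
  rw [smul_mul_assoc, smul_mul_assoc, mul_smul_comm]

theorem pr_RL_congr (X X' Y Y' : ι → L) (h1 : ∀ a, pr (X a) = pr (X' a))
    (h2 : ∀ a, pr (Y a) = pr (Y' a)) : pr (RL U s n X Y) = pr (RL U s n X' Y') := by
  unfold RL
  simp only [map_sum, map_mul, h1, h2]

/-- norm estimate in the sequence algebra -/
theorem NB (h : SQ ev pr) (h12 : S_C12) {τ : B →ₗ[ℂ] ℂ} {S : StarSubalgebra ℂ B}
    (ht : FTrip τ S u2 s2) (hn : Function.Injective n) (hU : ∀ k, ev k U = u2)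
    (hs : ∀ k, ev k s = s2) (X Y : ι → L) (hX : ∀ a k, ev k (X a) ∈ S)
    (hY : ∀ a k, ev k (Y a) ∈ S) (r η K N : ℝ) (hr : 0 ≤ r) (hη : 0 ≤ η) (hK : 0 ≤ K)
    (h1 : ∀ a k, (τ (star (ev k (X a)) * ev k (X a))).re ≤ r)
    (h2 : ∀ a k, (τ (ev k (Y a) * star (ev k (Y a)))).re ≤ η)
    (h3 : ∀ a k, ‖ev k (X a)‖ ≤ K) (h4 : ‖pr (∑ a, star (Y a) * Y a)‖ < N) :
    ‖pr (RL U s n X Y)‖ ≤ √(r * N) + √(Fintype.card ι * η) * K := by
  refine h.le _ _ (by positivity) ?_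
  filter_upwards [h.lt _ _ h4] with k hk
  rw [ev_RL hU hs]
  have e1 := (h12 B τ S u2 s2 ht ι n hn (fun a => ev k (X a)) (fun a => ev k (Y a))
    (fun a => ev k (X a)) (fun a => ev k (Y a)) (fun a => hX a k) (fun a => hY a k)
    (fun a => hX a k) (fun a => hY a k)).1
  have e2 := nL_le ht.fts (fun a => ev k (X a)) (fun a => ev k (Y a)) r (fun a => h1 a k)
  have e3 := nM_le ht.fts (fun a => ev k (X a)) (fun a => ev k (Y a)) η K hη hK
    (fun a => h2 a k) (fun a => h3 a k)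
  have e4 : ∑ a, star (ev k (Y a)) * ev k (Y a) = ev k (∑ a, star (Y a) * Y a) := by
    simp only [map_sum, map_mul, map_star]
  rw [e4] at e2
  calc _ ≤ _ := e1
    _ ≤ √(r * ‖ev k (∑ a, star (Y a) * Y a)‖) + √(Fintype.card ι * η) * K := add_le_add e2 e3
    _ ≤ √(r * N) + √(Fintype.card ι * η) * K := by
        gcongr

/-- inner products in the sequence algebra -/
theorem NB2 (h : SQ ev pr) (h12 : S_C12) {τ : B →ₗ[ℂ] ℂ} {S : StarSubalgebra ℂ B}
    (ht : FTrip τ S u2 s2) (hn : Function.Injective n) (hU : ∀ k, ev k U = u2)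
    (hs : ∀ k, ev k s = s2) (X Y X' Y' : ι → L) (hX : ∀ a k, ev k (X a) ∈ S)
    (hY : ∀ a k, ev k (Y a) ∈ S) (hX' : ∀ a k, ev k (X' a) ∈ S)
    (hY' : ∀ a k, ev k (Y' a) ∈ S) (η K ζ : ℝ) (hη : 0 ≤ η) (hK : 0 ≤ K) (hζ : 0 ≤ ζ)
    (h1 : ∀ a k, (τ (star (ev k (X a)) * ev k (X a))).re ≤ 1)
    (h1' : ∀ a k, (τ (star (ev k (X' a)) * ev k (X' a))).re ≤ 1)
    (h2 : ∀ a k, (τ (ev k (Y a) * star (ev k (Y a)))).re ≤ η)
    (h2' : ∀ a k, (τ (ev k (Y' a) * star (ev k (Y' a)))).re ≤ η)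
    (h3 : ∀ a k, ‖ev k (X a)‖ ≤ K) (h3' : ∀ a k, ‖ev k (X' a)‖ ≤ K)
    (h4 : ∀ a k, ‖ev k (Y a)‖ ≤ 1) (h4' : ∀ a k, ‖ev k (Y' a)‖ ≤ 1) (Z : L)
    (h5 : ∀ k, ‖∑ a, τ (star (ev k (X a)) * ev k (X' a)) • (star (ev k (Y a)) * ev k (Y' a)) -
      ev k Z‖ ≤ ζ) :
    ‖pr (star (RL U s n X Y) * RL U s n X' Y') - pr Z‖ ≤
      2 * √(Fintype.card ι) * (√(Fintype.card ι * η) * K) + (√(Fintype.card ι * η) * K) ^ 2 + ζ := by
  rw [← map_sub]
  refine h.le _ _ (by positivity) (Filter.Eventually.of_forall fun k => ?_)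
  rw [map_sub, map_mul, map_star, ev_RL hU hs, ev_RL hU hs]
  have e1 := (h12 B τ S u2 s2 ht ι n hn (fun a => ev k (X a)) (fun a => ev k (Y a))
    (fun a => ev k (X' a)) (fun a => ev k (Y' a)) (fun a => hX a k) (fun a => hY a k)
    (fun a => hX' a k) (fun a => hY' a k)).2
  have e2 := nL_le' ht.fts (fun a => ev k (X a)) (fun a => ev k (Y a)) (fun a => h1 a k)
    (fun a => h4 a k)
  have e2' := nL_le' ht.fts (fun a => ev k (X' a)) (fun a => ev k (Y' a)) (fun a => h1' a k)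
    (fun a => h4' a k)
  have e3 := nM_le ht.fts (fun a => ev k (X a)) (fun a => ev k (Y a)) η K hη hK
    (fun a => h2 a k) (fun a => h3 a k)
  have e3' := nM_le ht.fts (fun a => ev k (X' a)) (fun a => ev k (Y' a)) η K hη hK
    (fun a => h2' a k) (fun a => h3' a k)
  have p1 : 0 ≤ nL τ (fun a => ev k (X a)) (fun a => ev k (Y a)) := Real.sqrt_nonneg _
  have p2 : 0 ≤ nM τ (fun a => ev k (X a)) (fun a => ev k (Y a)) := Real.sqrt_nonneg _
  have p3 : 0 ≤ nL τ (fun a => ev k (X' a)) (fun a => ev k (Y' a)) := Real.sqrt_nonneg _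
  have p4 : 0 ≤ nM τ (fun a => ev k (X' a)) (fun a => ev k (Y' a)) := Real.sqrt_nonneg _
  set c1 := √(Fintype.card ι : ℝ)
  set c2 := √(Fintype.card ι * η) * K
  have p5 : 0 ≤ c1 := Real.sqrt_nonneg _
  have p6 : 0 ≤ c2 := by positivity
  calc _ ≤ ‖star (RT u2 s2 n (fun a => ev k (X a)) fun a => ev k (Y a)) *
        RT u2 s2 n (fun a => ev k (X' a)) (fun a => ev k (Y' a)) -
        ∑ a, τ (star (ev k (X a)) * ev k (X' a)) • (star (ev k (Y a)) * ev k (Y' a))‖ +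
        ‖∑ a, τ (star (ev k (X a)) * ev k (X' a)) • (star (ev k (Y a)) * ev k (Y' a)) -
          ev k Z‖ := norm_sub_le_norm_sub_add_norm_sub _ _ _
    _ ≤ (c1 * c2 + c2 * (c1 + c2)) + ζ := by
        refine add_le_add (e1.trans ?_) (h5 k)
        gcongr
    _ = 2 * c1 * c2 + c2 ^ 2 + ζ := by ring

end seq

end Pool.Agent.N300.UN.T_DATA
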