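import Pool.Agent.N300.UN.DataB

set_option autoImplicit false

open scoped ComplexConjugate

noncomputable section

namespace Pool.Agent.N300.UN.T_DATA

open Pool.Agent.H923R2.FP Pool.Agent.H923R2.FZ Pool.Agent.N300.UN

/-- complexification -/
def cxx {X : Type} [TopologicalSpace X] (h : C(X, ℝ)) : C(X, ℂ) :=
  ⟨fun x => ((h x : ℝ) : ℂ), by fun_prop⟩

theorem cxx_apply {X : Type} [TopologicalSpace X] (h : C(X, ℝ)) (x : X) : cxx h x = (h x : ℂ) := rfl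

theorem star_cxx {X : Type} [TopologicalSpace X] (h : C(X, ℝ)) : star (cxx h) = cxx h := by
  ext x
  change star ((h x : ℝ) : ℂ) = _
  rw [Complex.star_def, Complex.conj_ofReal]
  rfl

theorem cxx_mul {X : Type} [TopologicalSpace X] (h h' : C(X, ℝ)) :
    cxx h * cxx h' = cxx (h * h') := by
  ext x
  simp [cxx_apply]

theorem cxx_sum {X : Type} [TopologicalSpace X] {ι : Type} (s : Finset ι) (h : ι → C(X, ℝ)) :
    ∑ j ∈ s, cxx (h j) = cxx (∑ j ∈ s, h j) := by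
  ext x
  simp [cxx_apply]

theorem norm_cxx_le {X : Type} [TopologicalSpace X] [CompactSpace X] (h : C(X, ℝ)) (r : ℝ)
    (hr : 0 ≤ r) (hh : ∀ x, |h x| ≤ r) : ‖cxx h‖ ≤ r := by
  refine (ContinuousMap.norm_le _ hr).2 fun x => ?_
  rw [cxx_apply, Complex.norm_real, Real.norm_eq_abs]
  exact hh x

section cells

variable {B L Q : Type} [CStarAlgebra B] [CStarAlgebra L] [CStarAlgebra Q]
  {ev : ℕ → (L →⋆ₐ[ℂ] B)} {pr : L →⋆ₐ[ℂ] Q}
  {X : Type} [TopologicalSpace X] [CompactSpace X]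

/-- admissible homomorphism -/
structure Adm (ev : ℕ → (L →⋆ₐ[ℂ] B)) (pr : L →⋆ₐ[ℂ] Q) (S : StarSubalgebra ℂ B) (PL : L)
    (e : ℝ) (α : C(X, ℂ) →⋆ₐ[ℂ] L) : Prop where
  mem : ∀ f k, ev k (α f) ∈ S
  comm : ∀ (f : C(X, ℂ)) (G : ℝ → ℝ), Continuous G → (∀ t, t ≤ e → G t = G e) →
    Commute (pr (α f)) (cfc G (pr PL))

/-- admissible `P` -/
structure AdP (ev : ℕ → (L →⋆ₐ[ℂ] B)) (S : StarSubalgebra ℂ B) (τ : B →ₗ[ℂ] ℂ) (PL : L)
    (e κ : ℝ) : Prop where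
  sa : star PL = PL
  mem : ∀ G : ℝ → ℝ, Continuous G → ∀ k, ev k (cfc G PL) ∈ S
  tr : ∀ k, (τ (cfc (kp e 4) (ev k PL))).re ≤ κ

/-- a cell -/
def cell (PL : L) (α : C(X, ℂ) →⋆ₐ[ℂ] L) (F : C(X, ℝ)) (G : ℝ → ℝ) : L := α (cxx F) * cfc G PL

variable {S : StarSubalgebra ℂ B} {τ : B →ₗ[ℂ] ℂ} {PL : L} {e κ : ℝ}
  {α : C(X, ℂ) →⋆ₐ[ℂ] L}

theorem cell_mem (hα : Adm ev pr S PL e α) (hP : AdP ev S τ PL e κ) (F : C(X, ℝ)) (G : ℝ → ℝ)
    (hG : Continuous G) (k : ℕ) : ev k (cell PL α F G) ∈ S := by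
  unfold cell
  rw [map_mul]
  exact mul_mem (hα.mem _ _) (hP.mem G hG k)

theorem hom_norm {C D : Type} [CStarAlgebra C] [CStarAlgebra D] (f : C →⋆ₐ[ℂ] D) (x : C) :
    ‖f x‖ ≤ ‖x‖ := NonUnitalStarAlgHom.norm_apply_le f x

theorem cell_norm (F : C(X, ℝ)) (G : ℝ → ℝ) (r : ℝ) (hr : 0 ≤ r) (hF : ∀ x, |F x| ≤ r)
    (hG1 : ∀ t, |G t| ≤ 1) (k : ℕ) : ‖ev k (cell PL α F G)‖ ≤ r := by
  refine (hom_norm _ _).trans ?_
  unfold cell
  calc ‖α (cxx F) * cfc G PL‖ ≤ ‖α (cxx F)‖ * ‖cfc G PL‖ := norm_mul_le _ _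
    _ ≤ r * 1 := by
        gcongr
        · exact (hom_norm α _).trans (norm_cxx_le F r hr hF)
        · exact norm_cfc_le_one _ _ hG1
    _ = r := mul_one _

theorem cell_tr (hτ : FTS τ) (hP : AdP ev S τ PL e κ) (F : C(X, ℝ)) (G : ℝ → ℝ)
    (hG : Continuous G) (hF : ∀ x, |F x| ≤ 1) (hG1 : ∀ t, G t ^ 2 ≤ kp e 4 t) (k : ℕ) :
    (τ (ev k (cell PL α F G) * star (ev k (cell PL α F G)))).re ≤ κ := by
  rw [hτ.comm]
  unfold cell
  rw [map_mul (ev k)]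
  refine (tr_left hτ _ _).trans ?_
  have h1 : ‖ev k (α (cxx F))‖ ≤ 1 :=
    (hom_norm _ _).trans ((hom_norm α _).trans (norm_cxx_le F 1 zero_le_one hF))
  have h2 : ev k (cfc G PL) = cfc G (ev k PL) := SQ.ev_cfc PL hP.sa G hG k
  have hPk : star (ev k PL) = ev k PL := by rw [← map_star, hP.sa]
  have h3 : star (ev k (cfc G PL)) * ev k (cfc G PL) = cfc (fun t => G t ^ 2) (ev k PL) := by
    rw [h2, star_cfc, cmul _ _ _ hG hG]
    congr 1
    funext t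
    ring
  rw [h3]
  have h4 := tr_mono hτ (ev k PL) (fun t => G t ^ 2) (kp e 4) hPk (by fun_prop) (kp_cont _ _) hG1
  have h5 : 0 ≤ (τ (cfc (fun t => G t ^ 2) (ev k PL))).re := by
    rw [← h3]; exact hτ.nonneg _
  calc _ ≤ 1 ^ 2 * (τ (cfc (fun t => G t ^ 2) (ev k PL))).re := by gcongr
    _ ≤ κ := by rw [one_pow, one_mul]; exact h4.trans (hP.tr k)

/-- sums of squares of cells in the quotient -/
theorem cell_sum (hα : Adm ev pr S PL e α) (hP : AdP ev S τ PL e κ) {J J' : Type} [Fintype J]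
    [Fintype J'] (F : J → C(X, ℝ)) (G : J' → ℝ → ℝ) (hG : ∀ p, Continuous (G p))
    (hGe : ∀ p t, t ≤ e → G p t = G p e) :
    pr (∑ c : J × J', star (cell PL α (F c.1) (G c.2)) * cell PL α (F c.1) (G c.2)) =
      pr (α (cxx (∑ j, F j * F j))) * cfc (fun t => ∑ p, G p t ^ 2) (pr PL) := by
  have hPs : star (pr PL) = pr PL := by rw [← map_star, hP.sa]
  have h1 : ∀ c : J × J', pr (star (cell PL α (F c.1) (G c.2)) * cell PL α (F c.1) (G c.2)) =
      pr (α (cxx (F c.1 * F c.1))) * cfc (fun t => G c.2 t ^ 2) (pr PL) := by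
    intro c
    unfold cell
    have e1 := (hα.comm (cxx (F c.1)) (G c.2) (hG _) (hGe _)).eq
    have e2 := (hα.comm (cxx (F c.1 * F c.1)) (G c.2) (hG _) (hGe _)).eq
    have e3 : pr (cfc (G c.2) PL) = cfc (G c.2) (pr PL) := SQ.pr_cfc PL hP.sa _ (hG _)
    rw [star_mul, star_cfc, ← map_star, star_cxx, map_mul, map_mul, map_mul, e3]
    calc cfc (G c.2) (pr PL) * pr (α (cxx (F c.1))) * (pr (α (cxx (F c.1))) *
          cfc (G c.2) (pr PL)) = cfc (G c.2) (pr PL) * (pr (α (cxx (F c.1))) *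
            pr (α (cxx (F c.1)))) * cfc (G c.2) (pr PL) := by simp only [mul_assoc]
      _ = cfc (G c.2) (pr PL) * pr (α (cxx (F c.1 * F c.1))) * cfc (G c.2) (pr PL) := by
          rw [← map_mul, ← map_mul, cxx_mul]
      _ = pr (α (cxx (F c.1 * F c.1))) * (cfc (G c.2) (pr PL) * cfc (G c.2) (pr PL)) := by
          rw [← e2, mul_assoc]
      _ = _ := by
          rw [cmul _ _ _ (hG _) (hG _)]
          congr 2
          funext t
          ring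
  rw [map_sum, Finset.sum_congr rfl fun c _ => h1 c, Fintype.sum_prod_type]
  have h2 : cfc (fun t => ∑ p, G p t ^ 2) (pr PL) = ∑ p, cfc (fun t => G p t ^ 2) (pr PL) := by
    have := cfc_sum_univ (R := ℝ) (fun p t => G p t ^ 2) (pr PL)
      (fun p => by have := hG p; fun_prop)
    rw [← this]
    congr 1
    funext t
    simp
  rw [h2, ← cxx_sum, map_sum, map_sum, Finset.sum_mul]
  refine Finset.sum_congr rfl fun j _ => ?_
  rw [Finset.mul_sum]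

theorem cell_sum_norm (hα : Adm ev pr S PL e α) (hP : AdP ev S τ PL e κ) {J J' : Type}
    [Fintype J] [Fintype J'] (F : J → C(X, ℝ)) (G : J' → ℝ → ℝ) (hG : ∀ p, Continuous (G p))
    (hGe : ∀ p t, t ≤ e → G p t = G p e) (r r' : ℝ) (hr : 0 ≤ r) (hr' : 0 ≤ r')
    (hF : ∀ x, ∑ j, F j x ^ 2 ≤ r) (hG2 : ∀ t, ∑ p, G p t ^ 2 ≤ r') :
    ‖pr (∑ c : J × J', star (cell PL α (F c.1) (G c.2)) * cell PL α (F c.1) (G c.2))‖ ≤
      r * r' := by
  rw [cell_sum hα hP F G hG hGe]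
  refine (norm_mul_le _ _).trans ?_
  gcongr
  · refine (hom_norm pr _).trans ((hom_norm α _).trans (norm_cxx_le _ r hr fun x => ?_))
    have : (∑ j, F j * F j) x = ∑ j, F j x ^ 2 := by
      simp [sq]
    rw [this, abs_of_nonneg (Finset.sum_nonneg fun j _ => sq_nonneg _)]
    exact hF x
  · refine norm_cfc_le hr' fun t _ => ?_
    rw [Real.norm_eq_abs, abs_of_nonneg (Finset.sum_nonneg fun p _ => sq_nonneg _)]
    exact hG2 t

end cells

end Pool.Agent.N300.UN.T_DATA
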