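import Pool.Agent.N300.UN.DataC

set_option autoImplicit false

open scoped ComplexConjugate

noncomputable section

namespace Pool.Agent.N300.UN.T_DATA

open Pool.Agent.H923R2.FP Pool.Agent.H923R2.FZ Pool.Agent.N300.UN

/-- the functions `G_p` -/
def Gp {N' : ℕ} (e : ℝ) (h' : Fin N' → C(unitInterval, ℝ)) (p : Fin N') (t : ℝ) : ℝ :=
  h' p (Set.projIcc 0 1 zero_le_one (kp e 1 t)) * kp e 3 t

section gp

variable {N' : ℕ} {e : ℝ} {h' : Fin N' → C(unitInterval, ℝ)}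

theorem Gp_cont (p : Fin N') : Continuous (Gp e h' p) := by
  unfold Gp
  have h1 := kp_cont e 1
  have h3 := kp_cont e 3
  exact (((h' p).continuous.comp (continuous_projIcc.comp h1)).mul h3)

theorem kp_const (he : 0 < e) (r : ℕ) (hr : 1 ≤ r) (t : ℝ) (ht : t ≤ e) :
    kp e r t = kp e r e := by
  have hr' : (1 : ℝ) ≤ r := by exact_mod_cast hr
  rw [kp_one he r (by nlinarith), kp_one he r (by nlinarith)]

theorem Gp_const (he : 0 < e) (p : Fin N') (t : ℝ) (ht : t ≤ e) : Gp e h' p t = Gp e h' p e := by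
  unfold Gp
  rw [kp_const he 1 le_rfl t ht, kp_const he 3 (by norm_num) t ht]

theorem Gp_abs (h1 : ∀ j x, 0 ≤ h' j x ∧ h' j x ≤ 1) (p : Fin N') (t : ℝ) :
    |Gp e h' p t| ≤ 1 := by
  unfold Gp
  have e1 := h1 p (Set.projIcc 0 1 zero_le_one (kp e 1 t))
  have e2 := kp_01 e 3 t
  rw [abs_mul, abs_of_nonneg e1.1, abs_of_nonneg e2.1]
  exact mul_le_one₀ e1.2 e2.1 e2.2

theorem kp3_sq_le (he : 0 < e) (t : ℝ) : kp e 3 t ^ 2 ≤ kp e 4 t := by
  have e1 := kp_01 e 3 t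
  have e2 := kp_01 e 4 t
  have e3 := kp_mul he (show 3 < 4 by norm_num) t
  nlinarith

theorem Gp_sq (he : 0 < e) (h1 : ∀ j x, 0 ≤ h' j x ∧ h' j x ≤ 1) (p : Fin N') (t : ℝ) :
    Gp e h' p t ^ 2 ≤ kp e 4 t := by
  unfold Gp
  have e1 := h1 p (Set.projIcc 0 1 zero_le_one (kp e 1 t))
  have e3 := kp3_sq_le he t
  rw [mul_pow]
  have e4 : h' p (Set.projIcc 0 1 zero_le_one (kp e 1 t)) ^ 2 ≤ 1 := pow_le_one₀ e1.1 e1.2
  nlinarith [sq_nonneg (kp e 3 t)]

theorem Gp_sum (h2 : ∀ x, ∑ j, h' j x ^ 2 = 1) (t : ℝ) :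
    ∑ p, Gp e h' p t ^ 2 = kp e 3 t ^ 2 := by
  unfold Gp
  simp only [mul_pow]
  rw [← Finset.sum_mul, h2, one_mul]

theorem Gp_dist (sp : Fin N' → unitInterval) (ω : ℝ)
    (h3 : ∀ j x, h' j x ≠ 0 → dist x (sp j) < ω) (p : Fin N') (t : ℝ) (hG : Gp e h' p t ≠ 0) :
    |kp e 1 t - (sp p : ℝ)| < ω := by
  unfold Gp at hG
  have e1 : h' p (Set.projIcc 0 1 zero_le_one (kp e 1 t)) ≠ 0 := left_ne_zero_of_mul hG
  have e2 := h3 p _ e1
  rw [Subtype.dist_eq, Real.dist_eq, Set.projIcc_of_mem zero_le_one (kp_01 e 1 t)] at e2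
  exact e2

end gp

section site

variable {B L Q : Type} [CStarAlgebra B] [CStarAlgebra L] [CStarAlgebra Q]
  {ev : ℕ → (L →⋆ₐ[ℂ] B)} {pr : L →⋆ₐ[ℂ] Q}
  {X : Type} [TopologicalSpace X] [CompactSpace X]
  {S : StarSubalgebra ℂ B} {τ : B →ₗ[ℂ] ℂ} {PL : L} {e κ : ℝ}

/-- the left coefficients -/
def xc (PL : L) (Φ : C(X, ℂ) →⋆ₐ[ℂ] L) (e c : ℝ) (F : C(X, ℝ)) : L :=
  ((c : ℝ) : ℂ) • cell PL Φ F (fun t => 1 - kp e 4 t)

theorem q_abs (t : ℝ) : |1 - kp e 4 t| ≤ 1 := by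
  have := kp_01 e 4 t
  rw [abs_of_nonneg (by linarith)]
  linarith

theorem q_cont : Continuous (fun t => 1 - kp e 4 t) := by
  have := kp_cont e 4
  fun_prop

variable {Φ α : C(X, ℂ) →⋆ₐ[ℂ] L}

theorem xc_mem (hΦ : Adm ev pr S PL e Φ) (hP : AdP ev S τ PL e κ) (c : ℝ) (F : C(X, ℝ)) (k : ℕ) :
    ev k (xc PL Φ e c F) ∈ S := by
  unfold xc
  rw [map_smul]
  exact SMulMemClass.smul_mem _ (cell_mem hΦ hP F _ q_cont k)

theorem xc_norm (c : ℝ) (hc : 0 ≤ c) (F : C(X, ℝ)) (hF : ∀ x, |F x| ≤ 1) (k : ℕ) :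
    ‖ev k (xc PL Φ e c F)‖ ≤ c := by
  unfold xc
  rw [map_smul, norm_smul, Complex.norm_real, Real.norm_of_nonneg hc]
  calc c * ‖ev k (cell PL Φ F fun t => 1 - kp e 4 t)‖ ≤ c * 1 := by
        gcongr
        exact cell_norm F _ 1 zero_le_one hF q_abs k
    _ = c := mul_one c

/-- the functional `μ` is monotone -/
theorem mu_mono (hτ : FTS τ) (Φk : C(X, ℂ) →⋆ₐ[ℂ] B) (g g' : C(X, ℝ)) (h : ∀ x, g x ≤ g' x) :
    (τ (Φk (cxx g))).re ≤ (τ (Φk (cxx g'))).re := by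
  let z : C(X, ℝ) := ⟨fun x => √(g' x - g x), by fun_prop⟩
  have h1 : star (Φk (cxx z)) * Φk (cxx z) = Φk (cxx g') - Φk (cxx g) := by
    rw [← map_star, star_cxx, ← map_mul, cxx_mul, ← map_sub]
    congr 1
    ext x
    have : (z * z) x = g' x - g x := Real.mul_self_sqrt (sub_nonneg.2 (h x))
    rw [cxx_apply, this]
    simp [cxx_apply]
  have h2 := hτ.nonneg (Φk (cxx z))
  rw [h1, map_sub, Complex.sub_re] at h2
  linarith

theorem xc_tr (hτ : FTS τ) (hP : AdP ev S τ PL e κ) (c m r : ℝ) (hc : c ^ 2 * m = 1)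
    (F h : C(X, ℝ)) (k : ℕ) (hm : (τ (ev k (Φ (cxx (h * h))))).re = m)
    (hF : ∀ x, F x ^ 2 ≤ r * h x ^ 2) :
    (τ (star (ev k (xc PL Φ e c F)) * ev k (xc PL Φ e c F))).re ≤ r := by
  have e0 : τ (star (ev k (xc PL Φ e c F)) * ev k (xc PL Φ e c F)) =
      ((c ^ 2 : ℝ) : ℂ) * τ (star (ev k (Φ (cxx F)) * ev k (cfc (fun t => 1 - kp e 4 t) PL)) *
        (ev k (Φ (cxx F)) * ev k (cfc (fun t => 1 - kp e 4 t) PL))) := by
    unfold xc cell
    rw [map_smul, map_mul (ev k), star_smul, smul_mul_smul_comm, map_smul, smul_eq_mul,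
      Complex.star_def, Complex.conj_ofReal]
    push_cast
    ring
  rw [e0, Complex.re_ofReal_mul]
  have e1 := tr_right hτ (ev k (Φ (cxx F))) (ev k (cfc (fun t => 1 - kp e 4 t) PL))
  have e2 : ‖ev k (cfc (fun t => 1 - kp e 4 t) PL)‖ ≤ 1 :=
    (hom_norm _ _).trans (norm_cfc_le_one _ _ q_abs)
  have e3 : star (ev k (Φ (cxx F))) * ev k (Φ (cxx F)) = ev k (Φ (cxx (F * F))) := by
    rw [← map_star, ← map_mul, ← map_star, star_cxx, ← map_mul, cxx_mul]
  rw [e3] at e1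
  have e4 : (τ (ev k (Φ (cxx (F * F))))).re ≤ r * m := by
    have h1 := mu_mono hτ ((ev k).comp Φ) (F * F) ((r • (h * h) : C(X, ℝ))) (fun x => by
      have := hF x
      simp only [ContinuousMap.mul_apply, ContinuousMap.smul_apply, smul_eq_mul]
      nlinarith)
    have h2 : (cxx (r • (h * h) : C(X, ℝ))) = ((r : ℝ) : ℂ) • cxx (h * h) := by
      ext x
      simp [cxx_apply]
    rw [h2, map_smul, map_smul, smul_eq_mul, Complex.re_ofReal_mul] at h1
    rw [← hm]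
    exact h1
  have e5 : 0 ≤ (τ (ev k (Φ (cxx (F * F))))).re := by rw [← e3]; exact hτ.nonneg _
  have e6 : ‖ev k (cfc (fun t => 1 - kp e 4 t) PL)‖ ^ 2 ≤ 1 := pow_le_one₀ (norm_nonneg _) e2
  calc _ ≤ c ^ 2 * ((τ (ev k (Φ (cxx (F * F))))).re *
        ‖ev k (cfc (fun t => 1 - kp e 4 t) PL)‖ ^ 2) := by gcongr
    _ ≤ c ^ 2 * ((r * m) * 1) :=
        mul_le_mul_of_nonneg_left (mul_le_mul e4 e6 (by positivity) (e5.trans e4)) (sq_nonneg c)
    _ = r := by rw [mul_one, mul_left_comm, hc, mul_one]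

/-- lower bound for the trace of the left coefficients -/
theorem xc_tr_low (hτ : FTS τ) (hP : AdP ev S τ PL e κ) (c m : ℝ) (hc : c ^ 2 * m = 1)
    (h : C(X, ℝ)) (hh : ∀ x, |h x| ≤ 1) (k : ℕ)
    (hm : (τ (ev k (Φ (cxx (h * h))))).re = m) :
    1 - c ^ 2 * (2 * κ) ≤
      (τ (star (ev k (xc PL Φ e c h)) * ev k (xc PL Φ e c h))).re := by
  have hPk : star (ev k PL) = ev k PL := by rw [← map_star, hP.sa]
  set H := ev k (Φ (cxx h)) with hH
  set q := ev k (cfc (fun t => 1 - kp e 4 t) PL) with hq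
  have hHs : star H = H := by rw [hH, ← map_star, ← map_star, star_cxx]
  have hqs : star q = q := by rw [hq, ← map_star, star_cfc]
  have hqc : q = cfc (fun t => 1 - kp e 4 t) (ev k PL) := SQ.ev_cfc PL hP.sa _ q_cont k
  have hHH : H * H = ev k (Φ (cxx (h * h))) := by rw [hH, ← map_mul, ← map_mul, cxx_mul]
  have e0 : τ (star (ev k (xc PL Φ e c h)) * ev k (xc PL Φ e c h)) =
      ((c ^ 2 : ℝ) : ℂ) * τ (star (H * q) * (H * q)) := by
    unfold xc cell
    rw [map_smul, map_mul (ev k), star_smul, smul_mul_smul_comm, map_smul, smul_eq_mul,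
      Complex.star_def, Complex.conj_ofReal]
    push_cast
    ring
  rw [e0, Complex.re_ofReal_mul]
  -- the complementary part
  let zf : ℝ → ℝ := fun t => √(1 - (1 - kp e 4 t) ^ 2)
  have hzc : Continuous zf := by
    have := kp_cont e 4
    change Continuous fun t => √(1 - (1 - kp e 4 t) ^ 2)
    fun_prop
  have hz0 : ∀ t, 0 ≤ 1 - (1 - kp e 4 t) ^ 2 := fun t => by
    have := kp_01 e 4 t
    nlinarith
  set z := cfc zf (ev k PL) with hz
  have hzs : star z = z := star_cfc _ _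
  have hzz : z * z + q * q = 1 := by
    rw [hz, hqc, cmul _ _ _ hzc hzc, cmul _ _ _ q_cont q_cont,
      ← cfc_add (ev k PL) (fun t => zf t * zf t) (fun t => (1 - kp e 4 t) * (1 - kp e 4 t))
        (by fun_prop) (by have := kp_cont e 4; fun_prop),
      ← cfc_const_one ℝ (ev k PL) (show IsSelfAdjoint (ev k PL) from hPk)]
    congr 1
    funext t
    have := Real.mul_self_sqrt (hz0 t)
    change √(1 - (1 - kp e 4 t) ^ 2) * √(1 - (1 - kp e 4 t) ^ 2) + _ = 1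
    rw [this]
    ring
  have e1 : τ (star (H * q) * (H * q)) = τ (H * H) - τ (star (H * z) * (H * z)) := by
    have a1 : τ (star (H * q) * (H * q)) = τ (H * H * (q * q)) := by
      rw [star_mul, hHs, hqs]
      calc τ (q * H * (H * q)) = τ (q * (H * H * q)) := by simp only [mul_assoc]
        _ = τ (H * H * q * q) := hτ.comm _ _
        _ = τ (H * H * (q * q)) := by simp only [mul_assoc]
    have a2 : τ (star (H * z) * (H * z)) = τ (H * H * (z * z)) := by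
      rw [star_mul, hHs, hzs]
      calc τ (z * H * (H * z)) = τ (z * (H * H * z)) := by simp only [mul_assoc]
        _ = τ (H * H * z * z) := hτ.comm _ _
        _ = τ (H * H * (z * z)) := by simp only [mul_assoc]
    have a3 : H * H * (q * q) = H * H - H * H * (z * z) := by
      rw [eq_sub_iff_add_eq, ← mul_add, add_comm (q * q), hzz, mul_one]
    rw [a1, a2, a3, map_sub]
  have e2 := tr_left hτ H z
  have e3 : ‖H‖ ≤ 1 := (hom_norm _ _).trans ((hom_norm Φ _).trans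
    (norm_cxx_le h 1 zero_le_one hh))
  have e4 : (τ (star z * z)).re ≤ 2 * κ := by
    have a1 : star z * z = cfc (fun t => zf t * zf t) (ev k PL) := by
      rw [hzs, hz, cmul _ _ _ hzc hzc]
    have a2 := tr_mono hτ (ev k PL) (fun t => zf t * zf t) (fun t => 2 * kp e 4 t) hPk
      (by fun_prop) (by have := kp_cont e 4; fun_prop) (fun t => by
        have b1 := Real.mul_self_sqrt (hz0 t)
        change √(1 - (1 - kp e 4 t) ^ 2) * √(1 - (1 - kp e 4 t) ^ 2) ≤ _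
        rw [b1]
        have := kp_01 e 4 t
        nlinarith)
    have a3 : cfc (fun t => 2 * kp e 4 t) (ev k PL) =
        ((2 : ℝ) : ℂ) • cfc (kp e 4) (ev k PL) := by
      rw [Complex.coe_smul, ← cfc_const_mul (2 : ℝ) (kp e 4) (ev k PL)
        (kp_cont e 4).continuousOn]
    rw [a1]
    refine a2.trans ?_
    rw [a3, map_smul, smul_eq_mul, Complex.re_ofReal_mul]
    have := hP.tr k
    linarith
  have e5 : (τ (star (H * z) * (H * z))).re ≤ 2 * κ := by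
    have a1 : ‖H‖ ^ 2 ≤ 1 := pow_le_one₀ (norm_nonneg _) e3
    have a2 := hτ.nonneg z
    nlinarith
  rw [e1, Complex.sub_re, hHH, hm, mul_sub, hc]
  have := mul_le_mul_of_nonneg_left e5 (sq_nonneg c)
  linarith

end site

end Pool.Agent.N300.UN.T_DATA
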