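import Pool.Agent.N300.UN.DataD

set_option autoImplicit false

open scoped ComplexConjugate

noncomputable section

namespace Pool.Agent.N300.UN.T_DATA

open Pool.Agent.H923R2.FP Pool.Agent.H923R2.FZ Pool.Agent.N300.UN

/-- a constant real function -/
def ct {X : Type} [TopologicalSpace X] (r : ℝ) : C(X, ℝ) := ContinuousMap.const X r

theorem cxx_ct_mul {X : Type} [TopologicalSpace X] (r : ℝ) (h : C(X, ℝ)) :
    cxx (ct r * h) = (r : ℂ) • cxx h := by
  ext x
  simp [cxx_apply, ct]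

theorem cxx_sub {X : Type} [TopologicalSpace X] (h h' : C(X, ℝ)) :
    cxx (h - h') = cxx h - cxx h' := by
  ext x
  simp [cxx_apply]

section inter

variable {B L Q : Type} [CStarAlgebra B] [CStarAlgebra L] [CStarAlgebra Q]
  {ev : ℕ → (L →⋆ₐ[ℂ] B)} {pr : L →⋆ₐ[ℂ] Q}
  {X : Type} [TopologicalSpace X] [CompactSpace X]
  {S : StarSubalgebra ℂ B} {τ : B →ₗ[ℂ] ℂ} {PL : L} {e κ : ℝ}
  {U s : L} {u2 : unitary B} {s2 : B} {Φ α : C(X, ℂ) →⋆ₐ[ℂ] L} {N N' : ℕ}
  {n : Fin N × Fin N' → ℕ}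

/-- the partitions of unity -/
structure Par (X : Type) [TopologicalSpace X] (N N' : ℕ) (h : Fin N → C(X, ℝ))
    (h' : Fin N' → C(unitInterval, ℝ)) (sp : Fin N' → unitInterval) (ω : ℝ) : Prop where
  h01 : ∀ j x, 0 ≤ h j x ∧ h j x ≤ 1
  hs : ∀ x, ∑ j, h j x ^ 2 = 1
  h01' : ∀ j x, 0 ≤ h' j x ∧ h' j x ≤ 1
  hs' : ∀ x, ∑ j, h' j x ^ 2 = 1
  hd' : ∀ j x, h' j x ≠ 0 → dist x (sp j) < ω

theorem inter (hSQ : SQ ev pr) (h12 : S_C12) (ht : FTrip τ S u2 s2)
    (hn : Function.Injective n) (hU : ∀ k, ev k U = u2) (hs : ∀ k, ev k s = s2)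
    (hΦ : Adm ev pr S PL e Φ) (hα : Adm ev pr S PL e α) (hP : AdP ev S τ PL e κ) (he : 0 < e)
    (hκ : 0 ≤ κ) (h : Fin N → C(X, ℝ)) (h' : Fin N' → C(unitInterval, ℝ))
    (sp : Fin N' → unitInterval) (ω : ℝ) (hω : 0 < ω) (hpar : Par X N N' h h' sp ω)
    (g : Fin N × Fin N' → Fin N) (cc mm : Fin N → ℝ) (K : ℝ) (hcc0 : ∀ j, 0 ≤ cc j)
    (hcc : ∀ j, cc j ^ 2 * mm j = 1) (hccK : ∀ j, cc j ≤ K) (hK0 : 0 ≤ K)
    (hmm : ∀ j k, (τ (ev k (Φ (cxx (h j * h j))))).re = mm j)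
    (cl : C(X, ℝ)) (pj : Fin N → ℝ) (hcl : ∀ x, 0 ≤ cl x ∧ cl x ≤ 1)
    (hpj : ∀ j, 0 ≤ pj j ∧ pj j ≤ 1) (hclp : ∀ j x, h j x ≠ 0 → |cl x - pj j| ≤ ω)
    (t : ℝ) (ht0 : 0 ≤ t) (ht1 : t ≤ 1)
    (hg : ∀ c, |pj (g c) - (1 - t * (sp c.2 : ℝ)) * pj c.1| ≤ ω) :
    ‖pr (Φ (cxx cl) * RL U s n (fun c => xc PL Φ e (cc (g c)) (h (g c)))
          (fun c => cell PL α (h c.1) (Gp e h' c.2)) -
        RL U s n (fun c => xc PL Φ e (cc (g c)) (h (g c)))
          (fun c => cell PL α (h c.1) (Gp e h' c.2)) *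
          ((1 - (t : ℂ) • cfc (kp e 1) PL) * α (cxx cl)))‖ ≤
      4 * (√(2 * ω ^ 2) + √(Fintype.card (Fin N × Fin N') * κ) * K) := by
  have hτ := ht.fts
  set X0 : Fin N × Fin N' → L := fun c => xc PL Φ e (cc (g c)) (h (g c)) with hX0
  set Y0 : Fin N × Fin N' → L := fun c => cell PL α (h c.1) (Gp e h' c.2) with hY0
  set θ : L := (1 - (t : ℂ) • cfc (kp e 1) PL) * α (cxx cl) with hθ
  have hK : ∀ c, 0 ≤ cc (g c) := fun c => hcc0 _
  have hh1 : ∀ j x, |h j x| ≤ 1 := fun j x => by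
    rw [abs_of_nonneg (hpar.h01 j x).1]; exact (hpar.h01 j x).2
  -- the families
  set X1 : Fin N × Fin N' → L := fun c => xc PL Φ e (cc (g c)) ((cl - ct (pj (g c))) * h (g c))
    with hX1
  set Y1 : Fin N × Fin N' → L := fun c =>
    ((pj (g c) - (1 - t * (sp c.2 : ℝ)) * pj c.1 : ℝ) : ℂ) • Y0 c with hY1
  set Y2 : Fin N × Fin N' → L := fun c => cell PL α ((ct (pj c.1) - cl) * h c.1)
    (fun r => (1 - t * kp e 1 r) * Gp e h' c.2 r) with hY2
  set Y3 : Fin N × Fin N' → L := fun c => cell PL α (ct (pj c.1) * h c.1)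
    (fun r => (t * (kp e 1 r - sp c.2)) * Gp e h' c.2 r) with hY3
  -- exact identity on the left
  have hleft : ∀ c, Φ (cxx cl) * X0 c - ((pj (g c) : ℝ) : ℂ) • X0 c = X1 c := by
    intro c
    simp only [hX0, hX1, xc, cell]
    rw [sub_mul, cxx_sub, cxx_ct_mul, map_sub, map_smul, mul_smul_comm, ← smul_comm (cc (g c) : ℂ),
      ← smul_sub]
    congr 1
    rw [sub_mul, ← mul_assoc, ← map_mul, cxx_mul, smul_mul_assoc]
  -- identity on the right, in the quotient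
  have hright : ∀ c, pr (((pj (g c) : ℝ) : ℂ) • Y0 c - Y0 c * θ) = pr (Y1 c + Y2 c + Y3 c) := by
    intro c
    have hGc := Gp_cont (e := e) (h' := h') c.2
    have hkc := kp_cont e 1
    have c1 := (hα.comm (cxx cl) (Gp e h' c.2) hGc (Gp_const he c.2)).eq
    have c2 := (hα.comm (cxx cl) (kp e 1) hkc (kp_const he 1 le_rfl)).eq
    have c3 : cfc (Gp e h' c.2) (pr PL) * cfc (kp e 1) (pr PL) =
        cfc (kp e 1) (pr PL) * cfc (Gp e h' c.2) (pr PL) := (cfc_commute_cfc _ _ _).eq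
    have c4 : pr (α (cxx (h c.1))) * pr (α (cxx cl)) = pr (α (cxx cl)) * pr (α (cxx (h c.1))) := by
      rw [← map_mul, ← map_mul, ← map_mul, ← map_mul, mul_comm]
    have d1 : cfc (fun r => (1 - t * kp e 1 r) * Gp e h' c.2 r) (pr PL) =
        cfc (Gp e h' c.2) (pr PL) -
          (t : ℂ) • (cfc (kp e 1) (pr PL) * cfc (Gp e h' c.2) (pr PL)) := by
      rw [cmul _ _ _ hkc hGc, Complex.coe_smul, ← cfc_const_mul t _ (pr PL) (by fun_prop),
        ← cfc_sub _ _ (pr PL) hGc.continuousOn (by fun_prop)]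
      congr 1
      funext r
      ring
    have d2 : cfc (fun r => (t * (kp e 1 r - sp c.2)) * Gp e h' c.2 r) (pr PL) =
        (t : ℂ) • (cfc (kp e 1) (pr PL) * cfc (Gp e h' c.2) (pr PL)) -
          ((t * (sp c.2 : ℝ) : ℝ) : ℂ) • cfc (Gp e h' c.2) (pr PL) := by
      rw [cmul _ _ _ hkc hGc, Complex.coe_smul, ← cfc_const_mul t _ (pr PL) (by fun_prop),
        Complex.coe_smul, ← cfc_const_mul (t * (sp c.2 : ℝ)) _ (pr PL) (by fun_prop),
        ← cfc_sub _ _ (pr PL) (by fun_prop) (by fun_prop)]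
      congr 1
      funext r
      ring
    have k1 : pr (cfc (Gp e h' c.2) PL) = cfc (Gp e h' c.2) (pr PL) :=
      SQ.pr_cfc PL hP.sa _ hGc
    have k2 : pr (cfc (kp e 1) PL) = cfc (kp e 1) (pr PL) := SQ.pr_cfc PL hP.sa _ hkc
    have k3 : pr (cfc (fun r => (1 - t * kp e 1 r) * Gp e h' c.2 r) PL) =
        cfc (fun r => (1 - t * kp e 1 r) * Gp e h' c.2 r) (pr PL) :=
      SQ.pr_cfc PL hP.sa _ (by fun_prop)
    have k4 : pr (cfc (fun r => (t * (kp e 1 r - sp c.2)) * Gp e h' c.2 r) PL) =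
        cfc (fun r => (t * (kp e 1 r - sp c.2)) * Gp e h' c.2 r) (pr PL) :=
      SQ.pr_cfc PL hP.sa _ (by fun_prop)
    have m1 : ∀ r : ℝ, pr (α (cxx ((ct r - cl) * h c.1))) =
        (r : ℂ) • pr (α (cxx (h c.1))) - pr (α (cxx cl)) * pr (α (cxx (h c.1))) := by
      intro r
      rw [sub_mul, cxx_sub, cxx_ct_mul, ← cxx_mul]
      simp only [map_sub, map_smul, map_mul]
    have m2 : ∀ r : ℝ, pr (α (cxx (ct r * h c.1))) = (r : ℂ) • pr (α (cxx (h c.1))) := by
      intro r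
      rw [cxx_ct_mul, map_smul, map_smul]
    simp only [hY1, hY2, hY3, hY0, hθ, cell, map_sub, map_add, map_mul, map_smul, map_one, k1, k2,
      k3, k4, m1, m2, d1, d2]
    set H := pr (α (cxx (h c.1)))
    set Cc := pr (α (cxx cl))
    set D := cfc (Gp e h' c.2) (pr PL)
    set Sg := cfc (kp e 1) (pr PL)
    have f1 : H * D * ((1 - (t : ℂ) • Sg) * Cc) = Cc * H * D - (t : ℂ) • (Cc * H * (Sg * D)) := by
      rw [sub_mul, one_mul, mul_sub, smul_mul_assoc, mul_smul_comm]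
      congr 1
      · rw [mul_assoc, ← c1, ← mul_assoc, c4]
      · congr 1
        calc H * D * (Sg * Cc) = H * (D * (Sg * Cc)) := by rw [mul_assoc]
          _ = H * (D * (Cc * Sg)) := by rw [c2]
          _ = H * ((D * Cc) * Sg) := by rw [mul_assoc]
          _ = H * ((Cc * D) * Sg) := by rw [c1]
          _ = (H * Cc) * (D * Sg) := by simp only [mul_assoc]
          _ = (Cc * H) * (Sg * D) := by rw [c4, c3]
          _ = _ := rfl
    rw [f1]
    simp only [sub_mul, mul_sub, smul_mul_assoc, mul_smul_comm, smul_sub, smul_smul,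
      Complex.ofReal_sub, Complex.ofReal_mul, Complex.ofReal_one]
    module
  -- decomposition
  have hdec : pr (Φ (cxx cl) * RL U s n X0 Y0 - RL U s n X0 Y0 * θ) =
      pr (RL U s n X1 Y0) + (pr (RL U s n X0 Y1) + pr (RL U s n X0 Y2) + pr (RL U s n X0 Y3)) := by
    have e1 : Φ (cxx cl) * RL U s n X0 Y0 - RL U s n X0 Y0 * θ = RL U s n X1 Y0 +
        RL U s n X0 (fun c => ((pj (g c) : ℝ) : ℂ) • Y0 c - Y0 c * θ) := by
      rw [RL_left, RL_right, RL_sub_right, ← RL_smul]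
      have : RL U s n X1 Y0 = RL U s n (fun c => Φ (cxx cl) * X0 c -
          ((pj (g c) : ℝ) : ℂ) • X0 c) Y0 := by
        congr 1
        funext c
        exact (hleft c).symm
      rw [this, RL_sub_left]
      abel
    rw [e1, map_add, pr_RL_congr X0 X0 _ (fun c => Y1 c + Y2 c + Y3 c) (fun _ => rfl) hright,
      RL_add_right (U := U) (s := s) (n := n) X0 (fun c => Y1 c + Y2 c) Y3, RL_add_right, map_add,
      map_add]
  -- bounds
  have hX0m : ∀ c k, ev k (X0 c) ∈ S := fun c k => xc_mem hΦ hP _ _ k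
  have hX1m : ∀ c k, ev k (X1 c) ∈ S := fun c k => xc_mem hΦ hP _ _ k
  have hX0n : ∀ c k, ‖ev k (X0 c)‖ ≤ K := fun c k =>
    (xc_norm (cc (g c)) (hK c) _ (hh1 _) k).trans (hccK _)
  have hX1F : ∀ c x, |((cl - ct (pj (g c))) * h (g c) : C(X, ℝ)) x| ≤ 1 := by
    intro c x
    have a1 := hcl x
    have a2 := hpj (g c)
    simp only [ContinuousMap.mul_apply, ContinuousMap.sub_apply, ct, ContinuousMap.const_apply,
      abs_mul]
    refine mul_le_one₀ ?_ (abs_nonneg _) (hh1 _ _)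
    rw [abs_le]
    constructor <;> linarith
  have hX1n : ∀ c k, ‖ev k (X1 c)‖ ≤ K := fun c k =>
    (xc_norm (cc (g c)) (hK c) _ (hX1F c) k).trans (hccK _)
  have hX0t : ∀ c k, (τ (star (ev k (X0 c)) * ev k (X0 c))).re ≤ 1 := fun c k =>
    xc_tr hτ hP (cc (g c)) (mm (g c)) 1 (hcc _) (h (g c)) (h (g c)) k (hmm _ k)
      (fun x => by rw [one_mul])
  have hX1t : ∀ c k, (τ (star (ev k (X1 c)) * ev k (X1 c))).re ≤ ω ^ 2 := fun c k =>
    xc_tr hτ hP (cc (g c)) (mm (g c)) (ω ^ 2) (hcc _) _ (h (g c)) k (hmm _ k)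
      (fun x => by
        by_cases h0 : h (g c) x = 0
        · simp [h0]
        · have a1 := hclp (g c) x h0
          have a2 : (cl x - pj (g c)) ^ 2 ≤ ω ^ 2 := sq_le_sq' (abs_le.1 a1).1 (abs_le.1 a1).2
          simp only [ContinuousMap.mul_apply, ContinuousMap.sub_apply, ct,
            ContinuousMap.const_apply, mul_pow]
          have := sq_nonneg (h (g c) x)
          gcongr)
  have hYt : ∀ (F : C(X, ℝ)) (G : ℝ → ℝ), Continuous G → (∀ x, |F x| ≤ 1) →
      (∀ r, G r ^ 2 ≤ kp e 4 r) → ∀ k, (τ (ev k (cell PL α F G) *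
        star (ev k (cell PL α F G)))).re ≤ κ := fun F G hG hF hG2 k =>
    cell_tr hτ hP F G hG hF hG2 k
  have hG0 := fun p => Gp_cont (e := e) (h' := h') p
  have hGsum : ∀ r, ∑ p, Gp e h' p r ^ 2 ≤ 1 := fun r => by
    rw [Gp_sum hpar.hs']
    have := kp_01 e 3 r
    exact pow_le_one₀ this.1 this.2
  have hY0s : ‖pr (∑ c, star (Y0 c) * Y0 c)‖ ≤ 1 := by
    have := cell_sum_norm hα hP h (Gp e h') hG0 (Gp_const he) 1 1 zero_le_one zero_le_one
      (fun x => (hpar.hs x).le) hGsum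
    rwa [one_mul] at this
  have htk : ∀ r, |1 - t * kp e 1 r| ≤ 1 := fun r => by
    have a1 := kp_01 e 1 r
    have a2 : t * kp e 1 r ≤ 1 := mul_le_one₀ ht1 a1.1 a1.2
    have a3 : 0 ≤ t * kp e 1 r := mul_nonneg ht0 a1.1
    rw [abs_le]; constructor <;> linarith
  have hts : ∀ (p : Fin N') r, |t * (kp e 1 r - sp p)| ≤ 1 := fun p r => by
    have a1 := kp_01 e 1 r
    have a2 := (sp p).2
    rw [abs_mul, abs_of_nonneg ht0]
    refine mul_le_one₀ ht1 (abs_nonneg _) ?_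
    rw [abs_le]; constructor <;> linarith [a2.1, a2.2]
  have hmulG : ∀ (p : Fin N') (w r : ℝ), |w| ≤ 1 → (w * Gp e h' p r) ^ 2 ≤ Gp e h' p r ^ 2 := by
    intro p w r hw
    rw [mul_pow]
    have a1 : w ^ 2 ≤ 1 := by rw [← sq_abs]; exact pow_le_one₀ (abs_nonneg _) hw
    nlinarith [sq_nonneg (Gp e h' p r)]
  -- the four estimates
  set M : ℝ := √(2 * ω ^ 2) + √(Fintype.card (Fin N × Fin N') * κ) * K with hM
  have N1 : ‖pr (RL U s n X1 Y0)‖ ≤ M := by
    have := NB hSQ h12 ht hn hU hs X1 Y0 hX1m (fun c k => cell_mem hα hP _ _ (hG0 _) k) (ω ^ 2)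
      κ K 2 (sq_nonneg _) hκ hK0 hX1t
      (fun c k => hYt _ _ (hG0 _) (hh1 _) (Gp_sq he hpar.h01' c.2) k) hX1n
      (hY0s.trans_lt (by norm_num))
    rwa [mul_comm (ω ^ 2)] at this
  have hY1s : ‖pr (∑ c, star (Y1 c) * Y1 c)‖ ≤ ω ^ 2 := by
    have e1 : pr (∑ c, star (Y1 c) * Y1 c) =
        ∑ c, (((pj (g c) - (1 - t * (sp c.2 : ℝ)) * pj c.1) ^ 2 : ℝ) : ℂ) •
          (star (pr (Y0 c)) * pr (Y0 c)) := by
      rw [map_sum]
      refine Finset.sum_congr rfl fun c _ => ?_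
      simp only [hY1]
      rw [map_mul, map_star, map_smul, star_smul, smul_mul_smul_comm, Complex.star_def,
        Complex.conj_ofReal]
      congr 1
      push_cast
      ring
    rw [e1]
    refine (nsum_le _ _ (ω ^ 2) fun c => ⟨sq_nonneg _, ?_⟩).trans ?_
    · exact sq_le_sq' (abs_le.1 (hg c)).1 (abs_le.1 (hg c)).2
    · have e2 : ∑ c, star (pr (Y0 c)) * pr (Y0 c) = pr (∑ c, star (Y0 c) * Y0 c) := by
        simp only [map_sum, map_mul, map_star]
      rw [e2]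
      nlinarith [sq_nonneg ω]
  have hω2 : ω ^ 2 < 2 * ω ^ 2 := by nlinarith [sq_pos_of_pos hω]
  have hY1c : ∀ c, Y1 c = cell PL α (ct (pj (g c) - (1 - t * (sp c.2 : ℝ)) * pj c.1) * h c.1)
      (Gp e h' c.2) := by
    intro c
    simp only [hY1, hY0, cell]
    rw [cxx_ct_mul, map_smul, smul_mul_assoc]
  have hctF : ∀ (r : ℝ) (j : Fin N), |r| ≤ 1 → ∀ x, |(ct r * h j : C(X, ℝ)) x| ≤ 1 := by
    intro r j hr x
    simp only [ContinuousMap.mul_apply, ct, ContinuousMap.const_apply, abs_mul]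
    exact mul_le_one₀ hr (abs_nonneg _) (hh1 _ _)
  have hsp1 : ∀ p, 0 ≤ 1 - t * (sp p : ℝ) ∧ 1 - t * (sp p : ℝ) ≤ 1 := fun p => by
    have a2 := (sp p).2
    have a3 : t * (sp p : ℝ) ≤ 1 := mul_le_one₀ ht1 a2.1 a2.2
    have a4 : 0 ≤ t * (sp p : ℝ) := mul_nonneg ht0 a2.1
    constructor <;> linarith
  have hd1 : ∀ c : Fin N × Fin N', |pj (g c) - (1 - t * (sp c.2 : ℝ)) * pj c.1| ≤ 1 := by
    intro c
    have a1 := hpj (g c)
    have a2 := hpj c.1
    have a3 := hsp1 c.2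
    have a4 : (1 - t * (sp c.2 : ℝ)) * pj c.1 ≤ 1 := mul_le_one₀ a3.2 a2.1 a2.2
    have a5 : 0 ≤ (1 - t * (sp c.2 : ℝ)) * pj c.1 := mul_nonneg a3.1 a2.1
    rw [abs_le]; constructor <;> linarith
  have N2 : ‖pr (RL U s n X0 Y1)‖ ≤ M := by
    have := NB hSQ h12 ht hn hU hs X0 Y1 hX0m
      (fun c k => by rw [hY1c]; exact cell_mem hα hP _ _ (hG0 _) k) 1 κ K (2 * ω ^ 2) zero_le_one
      hκ hK0 hX0t
      (fun c k => by
        rw [hY1c]
        exact hYt _ _ (hG0 _) (hctF _ _ (hd1 c)) (Gp_sq he hpar.h01' c.2) k) hX0n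
      (hY1s.trans_lt hω2)
    rwa [one_mul] at this
  have hG2c : ∀ p : Fin N', Continuous (fun r => (1 - t * kp e 1 r) * Gp e h' p r) := fun p => by
    have a1 := kp_cont e 1
    have a2 := hG0 p
    fun_prop
  have hG3c : ∀ p : Fin N', Continuous (fun r => (t * (kp e 1 r - sp p)) * Gp e h' p r) :=
    fun p => by
    have a1 := kp_cont e 1
    have a2 := hG0 p
    fun_prop
  have hpj1 : ∀ j, |pj j| ≤ 1 := fun j => by rw [abs_of_nonneg (hpj j).1]; exact (hpj j).2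
  have hF2 : ∀ (j : Fin N) x, |((ct (pj j) - cl) * h j : C(X, ℝ)) x| ≤ 1 := by
    intro j x
    have a1 := hcl x
    have a2 := hpj j
    simp only [ContinuousMap.mul_apply, ContinuousMap.sub_apply, ct, ContinuousMap.const_apply,
      abs_mul]
    refine mul_le_one₀ ?_ (abs_nonneg _) (hh1 _ _)
    rw [abs_le]
    constructor <;> linarith
  have hY2s : ‖pr (∑ c, star (Y2 c) * Y2 c)‖ ≤ ω ^ 2 := by
    have := cell_sum_norm hα hP (fun j => (ct (pj j) - cl) * h j)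
      (fun p r => (1 - t * kp e 1 r) * Gp e h' p r) hG2c
      (fun p r hr => by rw [kp_const he 1 le_rfl r hr, Gp_const he p r hr]) (ω ^ 2) 1
      (sq_nonneg _) zero_le_one (fun x => by
        calc ∑ j, ((ct (pj j) - cl) * h j : C(X, ℝ)) x ^ 2 ≤ ∑ j, ω ^ 2 * h j x ^ 2 := by
              refine Finset.sum_le_sum fun j _ => ?_
              by_cases h0 : h j x = 0
              · simp [h0]
              · have a1 := hclp j x h0
                rw [abs_sub_comm] at a1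
                have a2 : (pj j - cl x) ^ 2 ≤ ω ^ 2 :=
                  sq_le_sq' (abs_le.1 a1).1 (abs_le.1 a1).2
                simp only [ContinuousMap.mul_apply, ContinuousMap.sub_apply, ct,
                  ContinuousMap.const_apply, mul_pow]
                have := sq_nonneg (h j x)
                gcongr
          _ = ω ^ 2 := by rw [← Finset.mul_sum, hpar.hs, mul_one])
      (fun r => (Finset.sum_le_sum fun p _ => hmulG p _ r (htk r)).trans (hGsum r))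
    rwa [mul_one] at this
  have N3 : ‖pr (RL U s n X0 Y2)‖ ≤ M := by
    have := NB hSQ h12 ht hn hU hs X0 Y2 hX0m
      (fun c k => cell_mem hα hP _ _ (hG2c _) k) 1 κ K (2 * ω ^ 2) zero_le_one
      hκ hK0 hX0t
      (fun c k => hYt _ _ (hG2c _) (hF2 _) (fun r => (hmulG c.2 _ r (htk r)).trans
        (Gp_sq he hpar.h01' c.2 r)) k) hX0n
      (hY2s.trans_lt hω2)
    rwa [one_mul] at this
  have hY3s : ‖pr (∑ c, star (Y3 c) * Y3 c)‖ ≤ ω ^ 2 := by
    have := cell_sum_norm hα hP (fun j => ct (pj j) * h j)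
      (fun p r => (t * (kp e 1 r - sp p)) * Gp e h' p r) hG3c
      (fun p r hr => by rw [kp_const he 1 le_rfl r hr, Gp_const he p r hr]) 1 (ω ^ 2)
      zero_le_one (sq_nonneg _) (fun x => by
        calc ∑ j, (ct (pj j) * h j : C(X, ℝ)) x ^ 2 ≤ ∑ j, h j x ^ 2 := by
              refine Finset.sum_le_sum fun j _ => ?_
              simp only [ContinuousMap.mul_apply, ct, ContinuousMap.const_apply, mul_pow]
              have a1 : pj j ^ 2 ≤ 1 := pow_le_one₀ (hpj j).1 (hpj j).2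
              nlinarith [sq_nonneg (h j x)]
          _ = 1 := hpar.hs x)
      (fun r => by
        calc ∑ p, ((t * (kp e 1 r - sp p)) * Gp e h' p r) ^ 2 ≤
              ∑ p, ω ^ 2 * Gp e h' p r ^ 2 := by
              refine Finset.sum_le_sum fun p _ => ?_
              by_cases h0 : Gp e h' p r = 0
              · simp [h0]
              · have a1 := (Gp_dist sp ω hpar.hd' p r h0).le
                have a2 : (kp e 1 r - sp p) ^ 2 ≤ ω ^ 2 :=
                  sq_le_sq' (abs_le.1 a1).1 (abs_le.1 a1).2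
                have a3 : t ^ 2 ≤ 1 := pow_le_one₀ ht0 ht1
                rw [mul_pow, mul_pow]
                have a4 : t ^ 2 * (kp e 1 r - sp p) ^ 2 ≤ ω ^ 2 := by
                  nlinarith [sq_nonneg (kp e 1 r - sp p)]
                have := sq_nonneg (Gp e h' p r)
                gcongr
          _ = ω ^ 2 * ∑ p, Gp e h' p r ^ 2 := by rw [Finset.mul_sum]
          _ ≤ ω ^ 2 := by
              have := hGsum r
              nlinarith [sq_nonneg ω])
    rwa [one_mul] at this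
  have N4 : ‖pr (RL U s n X0 Y3)‖ ≤ M := by
    have := NB hSQ h12 ht hn hU hs X0 Y3 hX0m
      (fun c k => cell_mem hα hP _ _ (hG3c _) k) 1 κ K (2 * ω ^ 2) zero_le_one
      hκ hK0 hX0t
      (fun c k => hYt _ _ (hG3c _) (hctF _ _ (hpj1 _)) (fun r => (hmulG c.2 _ r (hts _ r)).trans
        (Gp_sq he hpar.h01' c.2 r)) k) hX0n
      (hY3s.trans_lt hω2)
    rwa [one_mul] at this
  rw [hdec]
  calc _ ≤ ‖pr (RL U s n X1 Y0)‖ + ‖pr (RL U s n X0 Y1) + pr (RL U s n X0 Y2) +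
        pr (RL U s n X0 Y3)‖ := norm_add_le _ _
    _ ≤ M + (M + M + M) := by
        refine add_le_add N1 (norm_add₃_le.trans ?_)
        exact add_le_add (add_le_add N2 N3) N4
    _ = 4 * M := by ring

end inter

end Pool.Agent.N300.UN.T_DATA
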