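import Pool.Agent.N300.UN.DataE

set_option autoImplicit false

open scoped ComplexConjugate

noncomputable section

namespace Pool.Agent.N300.UN.T_DATA

open Pool.Agent.H923R2.FP Pool.Agent.H923R2.FZ Pool.Agent.N300.UN

section ext0

variable {L : Type} [CStarAlgebra L] {I0 J : Type} [Fintype I0] [Fintype J] [DecidableEq I0]

/-- extension by zero -/
def ext0 (i : I0) (X : J → L) (a : I0 × J) : L := if a.1 = i then X a.2 else 0

theorem RL_ext0 (U s : L) (n : I0 × J → ℕ) (i : I0) (X Y : J → L) :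
    RL U s n (ext0 i X) (ext0 i Y) = RL U s (fun c => n (i, c)) X Y := by
  unfold RL ext0
  rw [Fintype.sum_prod_type, Finset.sum_eq_single i]
  · simp
  · intro j _ hj
    simp [hj]
  · intro hi
    exact absurd (Finset.mem_univ _) hi

end ext0

section ip

variable {B L Q : Type} [CStarAlgebra B] [CStarAlgebra L] [CStarAlgebra Q]
  {ev : ℕ → (L →⋆ₐ[ℂ] B)} {pr : L →⋆ₐ[ℂ] Q} {S : StarSubalgebra ℂ B} {τ : B →ₗ[ℂ] ℂ}
  {U s : L} {u2 : unitary B} {s2 : B} {I0 J : Type} [Fintype I0] [Fintype J] [DecidableEq I0]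
  {n : I0 × J → ℕ}

theorem ip (hSQ : SQ ev pr) (h12 : S_C12) (ht : FTrip τ S u2 s2)
    (hn : Function.Injective n) (hU : ∀ k, ev k U = u2) (hs : ∀ k, ev k s = s2)
    (X Y : I0 → J → L) (κ K ζ : ℝ) (hκ : 0 ≤ κ) (hK : 0 ≤ K) (hζ : 0 ≤ ζ)
    (hX : ∀ i c k, ev k (X i c) ∈ S) (hY : ∀ i c k, ev k (Y i c) ∈ S)
    (h1 : ∀ i c k, (τ (star (ev k (X i c)) * ev k (X i c))).re ≤ 1)
    (h1' : ∀ i c k, 1 - ζ ≤ (τ (star (ev k (X i c)) * ev k (X i c))).re)
    (h2 : ∀ i c k, (τ (ev k (Y i c) * star (ev k (Y i c)))).re ≤ κ)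
    (h3 : ∀ i c k, ‖ev k (X i c)‖ ≤ K) (h4 : ∀ i c k, ‖ev k (Y i c)‖ ≤ 1) (i i' : I0) :
    ‖pr (star (RL U s (fun c => n (i, c)) (X i) (Y i)) *
        RL U s (fun c => n (i', c)) (X i') (Y i')) -
      pr (if i = i' then ∑ c, star (Y i c) * Y i c else 0)‖ ≤
      2 * √(Fintype.card (I0 × J)) * (√(Fintype.card (I0 × J) * κ) * K) +
        (√(Fintype.card (I0 × J) * κ) * K) ^ 2 + Fintype.card J * ζ := by
  have hτ := ht.fts
  rw [← RL_ext0 U s n i (X i) (Y i), ← RL_ext0 U s n i' (X i') (Y i')]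
  have m0 : ∀ (i : I0) (Z : I0 → J → L), (∀ i c k, ev k (Z i c) ∈ S) →
      ∀ a k, ev k (ext0 i (Z i) a) ∈ S := by
    intro i Z hZ a k
    unfold ext0
    split_ifs
    · exact hZ _ _ _
    · rw [map_zero]; exact zero_mem _
  have m1 : ∀ (i : I0) a k, (τ (star (ev k (ext0 i (X i) a)) * ev k (ext0 i (X i) a))).re ≤ 1 := by
    intro i a k
    unfold ext0
    split_ifs
    · exact h1 _ _ _
    · simp
  have m2 : ∀ (i : I0) a k, (τ (ev k (ext0 i (Y i) a) * star (ev k (ext0 i (Y i) a)))).re ≤ κ := by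
    intro i a k
    unfold ext0
    split_ifs
    · exact h2 _ _ _
    · simpa using hκ
  have m3 : ∀ (i : I0) a k, ‖ev k (ext0 i (X i) a)‖ ≤ K := by
    intro i a k
    unfold ext0
    split_ifs
    · exact h3 _ _ _
    · simpa using hK
  have m4 : ∀ (i : I0) a k, ‖ev k (ext0 i (Y i) a)‖ ≤ 1 := by
    intro i a k
    unfold ext0
    split_ifs
    · exact h4 _ _ _
    · simp
  refine NB2 hSQ h12 ht hn hU hs _ _ _ _ (m0 i X hX) (m0 i Y hY) (m0 i' X hX) (m0 i' Y hY) κ K
    (Fintype.card J * ζ) hκ hK (by positivity) (m1 i) (m1 i') (m2 i) (m2 i') (m3 i) (m3 i')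
    (m4 i) (m4 i') _ ?_
  intro k
  by_cases hii : i = i'
  · subst hii
    rw [if_pos rfl]
    have e1 : ∑ a : I0 × J, τ (star (ev k (ext0 i (X i) a)) * ev k (ext0 i (X i) a)) •
        (star (ev k (ext0 i (Y i) a)) * ev k (ext0 i (Y i) a)) =
        ∑ c, τ (star (ev k (X i c)) * ev k (X i c)) • (star (ev k (Y i c)) * ev k (Y i c)) := by
      unfold ext0
      rw [Fintype.sum_prod_type, Finset.sum_eq_single i]
      · simp
      · intro j _ hj
        simp [hj]
      · intro hi
        exact absurd (Finset.mem_univ _) hi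
    rw [e1, map_sum, ← Finset.sum_sub_distrib]
    calc _ ≤ ∑ c, ‖τ (star (ev k (X i c)) * ev k (X i c)) •
          (star (ev k (Y i c)) * ev k (Y i c)) - ev k (star (Y i c) * Y i c)‖ := norm_sum_le _ _
      _ ≤ ∑ _c : J, ζ := Finset.sum_le_sum fun c _ => by
          have e2 : τ (star (ev k (X i c)) * ev k (X i c)) •
              (star (ev k (Y i c)) * ev k (Y i c)) - ev k (star (Y i c) * Y i c) =
              (((τ (star (ev k (X i c)) * ev k (X i c))).re - 1 : ℝ) : ℂ) •
                (star (ev k (Y i c)) * ev k (Y i c)) := by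
            rw [map_mul (ev k), map_star, Complex.ofReal_sub, tr_sq hτ, Complex.ofReal_one,
              sub_smul, one_smul]
          rw [e2, norm_smul, Complex.norm_real, Real.norm_eq_abs, CStarRing.norm_star_mul_self]
          have e3 : |(τ (star (ev k (X i c)) * ev k (X i c))).re - 1| ≤ ζ := by
            have := h1 i c k
            have := h1' i c k
            rw [abs_le]; constructor <;> linarith
          have e4 := h4 i c k
          have e5 := norm_nonneg (ev k (Y i c))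
          calc _ ≤ ζ * (1 * 1) := by gcongr
            _ = ζ := by ring
      _ = Fintype.card J * ζ := by simp
  · rw [if_neg hii, map_zero, sub_zero]
    have e1 : ∀ a : I0 × J, τ (star (ev k (ext0 i (X i) a)) * ev k (ext0 i' (X i') a)) •
        (star (ev k (ext0 i (Y i) a)) * ev k (ext0 i' (Y i') a)) = 0 := by
      intro a
      unfold ext0
      by_cases h0 : a.1 = i
      · rw [if_neg (fun h => hii (h0.symm.trans h)), if_pos h0]
        simp
      · rw [if_neg h0]
        simp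
    rw [Finset.sum_eq_zero fun a _ => e1 a, norm_zero]
    positivity

end ip

end Pool.Agent.N300.UN.T_DATA
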