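import Pool.Agent.N300.UN.Stubs

/-!
# Project UN, wave 2: applications to reduced free products (MP_47f0a1_an, MP_1cc182_an).
-/

set_option autoImplicit false

open scoped ComplexConjugate

noncomputable section

namespace Pool.Agent.N300.UN

open Pool.Agent.H923R2.FP Pool.Agent.H923R2.FZ

/-- the tracial state `(a, b) ↦ (a + b) / 2` on `ℂ ⊕ ℂ` -/
def tw (x : ℂ × ℂ) : ℂ := (x.1 + x.2) / 2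

/-- `(ℂ ⊕ ℂ) * (ℂ ⊕ ℂ)` contains a copy of `C([0,1])` with the Lebesgue measure -/
def S_LEBP : Prop := ∀ (B : Type) [CStarAlgebra B] (τ : B →ₗ[ℂ] ℂ), FTS τ →
  ∀ e0 e1 : ℂ × ℂ →⋆ₐ[ℂ] B, (∀ x, τ (e0 x) = tw x) → (∀ x, τ (e1 x) = tw x) →
  FreeFam τ (fun b : Bool => if b then e0.range else e1.range) →
  ∃ c : C(unitInterval, ℂ) →⋆ₐ[ℂ] B, (∀ x, τ (c x) = leb x) ∧
    ∀ x, c x ∈ (e0.range ⊔ e1.range).topologicalClosure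

/-- `C([0,1]^n) * C([0,1])^{*∞} ≅ C([0,1])^{*∞}` -/
def S_RES47 : Prop := ∀ n : ℕ, 1 ≤ n → ∀ (W B : Type) [CStarAlgebra W] [CStarAlgebra B]
  (τW : W →ₗ[ℂ] ℂ) (g : ℕ → (C(unitInterval, ℂ) →⋆ₐ[ℂ] W)),
  RFP (J := ℕ) (fun _ => C(unitInterval, ℂ)) (fun _ => leb) τW g →
  ∀ (τ : B →ₗ[ℂ] ℂ) (i : C(Cube n, ℂ) →⋆ₐ[ℂ] B) (j : W →⋆ₐ[ℂ] B), FTS τ →
  (∀ x, τ (i x) = lebn n x) → (∀ x, τ (j x) = τW x) →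
  FreeFam τ (fun b : Bool => if b then i.range else j.range) →
  (StarAlgebra.adjoin ℂ (Set.range i ∪ Set.range j)).topologicalClosure = ⊤ →
  ∃ Φ : B ≃⋆ₐ[ℂ] W, ∀ x, τW (Φ x) = τ x

/-- `C([0,1]^n) * (ℂ ⊕ ℂ)^{*∞} ≅ (ℂ ⊕ ℂ)^{*∞}` -/
def S_RES1C : Prop := ∀ n : ℕ, 1 ≤ n → ∀ (P B : Type) [CStarAlgebra P] [CStarAlgebra B]
  (τP : P →ₗ[ℂ] ℂ) (g : ℕ → (ℂ × ℂ →⋆ₐ[ℂ] P)),
  RFP (J := ℕ) (fun _ => ℂ × ℂ) (fun _ => tw) τP g →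
  ∀ (τ : B →ₗ[ℂ] ℂ) (i : C(Cube n, ℂ) →⋆ₐ[ℂ] B) (j : P →⋆ₐ[ℂ] B), FTS τ →
  (∀ x, τ (i x) = lebn n x) → (∀ x, τ (j x) = τP x) →
  FreeFam τ (fun b : Bool => if b then i.range else j.range) →
  (StarAlgebra.adjoin ℂ (Set.range i ∪ Set.range j)).topologicalClosure = ⊤ →
  ∃ Φ : B ≃⋆ₐ[ℂ] P, ∀ x, τP (Φ x) = τ x

end Pool.Agent.N300.UN
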